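import Pool.Agent.N23.B20.Defs

set_option autoImplicit false

/-!
# Matrix rings over division rings with the adjoint involution of an anisotropic hermitian form
-/

namespace Pool.Agent.N23.B20

open Matrix

/-- an anisotropic hermitian form over a division ring with involution -/
structure Herm (ν D : Type) [Fintype ν] [DecidableEq ν] [DivisionRing D] [StarRing D] where
  H : Matrix ν ν D
  N : Matrix ν ν D
  hH : Hᴴ = H
  hN : Nᴴ = N
  h1 : H * N = 1
  h2 : N * H = 1
  aniso : ∀ v : ν → D, (v ᵥ* H) ⬝ᵥ star v = 0 → v = 0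

variable {ν D : Type} [Fintype ν] [DecidableEq ν] [DivisionRing D] [StarRing D]

/-- the matrix ring with the adjoint involution -/
def Adj (_h : Herm ν D) : Type := Matrix ν ν D

noncomputable instance (h : Herm ν D) : Ring (Adj h) := inferInstanceAs (Ring (Matrix ν ν D))

/-- the underlying matrix -/
def toM (h : Herm ν D) (M : Adj h) : Matrix ν ν D := M

/-- a matrix as an element of the ring -/
def ofM (h : Herm ν D) (M : Matrix ν ν D) : Adj h := M

theorem toM_ofM (h : Herm ν D) (M : Matrix ν ν D) : toM h (ofM h M) = M := rfl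

theorem toM_inj (h : Herm ν D) {M N : Adj h} (e : toM h M = toM h N) : M = N := e

theorem toM_mul (h : Herm ν D) (M N : Adj h) : toM h (M * N) = toM h M * toM h N := rfl
theorem toM_add (h : Herm ν D) (M N : Adj h) : toM h (M + N) = toM h M + toM h N := rfl
theorem toM_neg (h : Herm ν D) (M : Adj h) : toM h (- M) = - toM h M := rfl
theorem toM_one (h : Herm ν D) : toM h 1 = 1 := rfl
theorem toM_zero (h : Herm ν D) : toM h 0 = 0 := rfl

noncomputable instance (h : Herm ν D) : StarRing (Adj h) where
  star M := ofM h (h.H * (toM h M)ᴴ * h.N)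
  star_involutive := by
    intro M
    apply toM_inj
    rw [toM_ofM, toM_ofM, Matrix.conjTranspose_mul, Matrix.conjTranspose_mul,
      Matrix.conjTranspose_conjTranspose, h.hN, h.hH]
    calc h.H * (h.N * (toM h M * h.H)) * h.N = (h.H * h.N) * toM h M * (h.H * h.N) := by
          simp only [Matrix.mul_assoc]
      _ = toM h M := by rw [h.h1, Matrix.one_mul, Matrix.mul_one]
  star_mul := by
    intro M N
    apply toM_inj
    rw [toM_ofM, toM_mul, Matrix.conjTranspose_mul]
    change _ = (h.H * (toM h N)ᴴ * h.N) * (h.H * (toM h M)ᴴ * h.N)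
    calc h.H * ((toM h N)ᴴ * (toM h M)ᴴ) * h.N = h.H * (toM h N)ᴴ * 1 * ((toM h M)ᴴ * h.N) := by
          simp only [Matrix.mul_assoc, Matrix.one_mul]
      _ = (h.H * (toM h N)ᴴ * h.N) * (h.H * (toM h M)ᴴ * h.N) := by
          rw [← h.h2]
          simp only [Matrix.mul_assoc]
  star_add := by
    intro M N
    apply toM_inj
    rw [toM_ofM, toM_add, Matrix.conjTranspose_add]
    change _ = (h.H * (toM h M)ᴴ * h.N) + (h.H * (toM h N)ᴴ * h.N)
    rw [Matrix.mul_add, Matrix.add_mul]

theorem toM_star (h : Herm ν D) (M : Adj h) : toM h (star M) = h.H * (toM h M)ᴴ * h.N := rfl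

theorem adj_artinian (h : Herm ν D) : IsArtinianRing (Adj h) :=
  inferInstanceAs (IsArtinianRing (Matrix ν ν D))

theorem adj_proper (h : Herm ν D) (M : Adj h) (hM : star M * M = 0) : M = 0 := by
  apply toM_inj
  have h1 : h.H * (toM h M)ᴴ * h.N * toM h M = 0 := hM
  have h2 : (toM h M)ᴴ * h.N * toM h M = 0 := by
    calc (toM h M)ᴴ * h.N * toM h M = h.N * (h.H * (toM h M)ᴴ * h.N * toM h M) := by
          simp only [← Matrix.mul_assoc, h.h2, Matrix.one_mul]
      _ = 0 := by rw [h1, Matrix.mul_zero]
  -- rows of the conjugate transpose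
  have h3 : (toM h M)ᴴ * h.N = 0 := by
    refine Matrix.ext fun i j => ?_
    have h4 : ((toM h M)ᴴ * h.N) i = 0 := by
      apply h.aniso
      have h5 : ((toM h M)ᴴ * h.N) i = (toM h M)ᴴ i ᵥ* h.N := rfl
      rw [h5, Matrix.star_vecMul, Matrix.vecMul_vecMul, h.h2, Matrix.vecMul_one, h.hN,
        Matrix.dotProduct_mulVec]
      have h6 : star ((toM h M)ᴴ i) = fun l => toM h M l i := by
        funext l
        simp
      rw [h6]
      exact congrFun (congrFun h2 i) i
    exact congrFun h4 j
  have h7 : (toM h M)ᴴ = 0 := by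
    calc (toM h M)ᴴ = (toM h M)ᴴ * h.N * h.H := by rw [Matrix.mul_assoc, h.h2, Matrix.mul_one]
      _ = 0 := by rw [h3, Matrix.zero_mul]
  have h8 := congrArg Matrix.conjTranspose h7
  rw [Matrix.conjTranspose_conjTranspose, Matrix.conjTranspose_zero] at h8
  exact h8

/-- matrix rings over division rings are von Neumann regular -/
theorem matrix_regular (M : Matrix ν ν D) : ∃ X : Matrix ν ν D, M * X * M = M := by
  classical
  let f : (ν → D) →ₗ[D] (ν → D) := Matrix.vecMulLinear M
  obtain ⟨s, hs⟩ := f.rangeRestrict.exists_rightInverse_of_surjective f.range_rangeRestrict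
  obtain ⟨p, hp⟩ := (LinearMap.range f).subtype.exists_leftInverse_of_injective
    (Submodule.ker_subtype _)
  let g : (ν → D) →ₗ[D] (ν → D) := s.comp p
  have hfg : ∀ x, f (g (f x)) = f x := by
    intro x
    have h1 : p (f x) = ⟨f x, x, rfl⟩ := LinearMap.congr_fun hp ⟨f x, x, rfl⟩
    have h2 := LinearMap.congr_fun hs ⟨f x, x, rfl⟩
    have h3 := congrArg Subtype.val h2
    change f (s (p (f x))) = f x
    rw [h1]
    exact h3
  let X : Matrix ν ν D := fun i => g (Pi.single i 1)
  have hX : ∀ v : ν → D, v ᵥ* X = g v := by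
    intro v
    have h1 : v = ∑ j, v j • (Pi.single j 1 : ν → D) := by
      funext l
      rw [Finset.sum_apply]
      simp [Pi.single_apply]
    conv_rhs => rw [h1]
    rw [map_sum]
    funext l
    rw [Finset.sum_apply]
    simp only [Matrix.vecMul, dotProduct, map_smul, Pi.smul_apply, smul_eq_mul, X]
  refine ⟨X, ?_⟩
  refine Matrix.ext fun i j => ?_
  have h1 : (Pi.single i 1 : ν → D) ᵥ* (M * X * M) = (Pi.single i 1 : ν → D) ᵥ* M := by
    rw [← Matrix.vecMul_vecMul, ← Matrix.vecMul_vecMul, hX]
    exact hfg _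
  rw [Matrix.single_one_vecMul, Matrix.single_one_vecMul] at h1
  exact congrFun h1 j

theorem adj_starRegular (h : Herm ν D) : StarRegular (Adj h) :=
  ⟨fun a => matrix_regular (toM h a), adj_proper h⟩

end Pool.Agent.N23.B20
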