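import Pool.Agent.TH34.Tower

set_option autoImplicit false

/-!
# Free algebras over a field with an involution
-/

namespace Pool.Agent.N23.B20

open Pool.Agent.TH34 Matrix MulOpposite

/-- the data of the free algebra over a field -/
@[reducible] noncomputable def X0 (k Λ : Type) [Field k] : BData k k where
  ι := RingHom.id k
  Λ := Λ
  δ := fun _ => 0
  leib := by intros; simp
  β := Unit
  b := fun _ => 1
  rp := Finsupp.singleAddHom ()
  rp_smul := by
    intro u e
    simp
  rp_b := by
    intro i
    rfl
  sum_rp := by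
    intro e
    simp

/-- the free algebra -/
abbrev FA (k Λ : Type) [Field k] : Type := FR (X0 k Λ)

section basics

variable {k Λ : Type} [Field k]

theorem dt_zero (l : Λ) (e : k) : dt (X := X0 k Λ) l e = 0 := by
  rw [dt_apply]
  apply Finset.sum_eq_zero
  intro i _
  change (0 : k →+ k) _ * _ = 0
  simp

theorem Z_sg' (l : Λ) (w : List (Λ × Unit)) (e : k) :
    Z (X := X0 k Λ) l (sg (X0 k Λ) w e) = sg (X0 k Λ) ((l, ()) :: w) e := by
  have h := Z_sg (X := X0 k Λ) l w e
  rw [dt_zero, sg_zero, add_zero] at h
  rw [h]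
  change (Finsupp.single () e).sum _ = _
  rw [Finsupp.sum_single_index]
  · rfl
  · rw [map_zero, sg_zero]

theorem zel_eq (l : Λ) : zel (X0 k Λ) l = sg (X0 k Λ) [(l, ())] 1 := by
  rw [zel, one_def', Z_sg']

theorem Z_smul' (l : Λ) (c : k) (f : FA k Λ) :
    Z (X := X0 k Λ) l (c • f) = c • Z (X := X0 k Λ) l f := by
  induction f using FR.ind with
  | h0 => simp
  | ha f g hf hg => rw [smul_add, map_add, map_add, hf, hg, smul_add]
  | hs w e => rw [smul_sg, Z_sg', Z_sg', smul_sg]

theorem W_smul' (w : List (Λ × Unit)) (c : k) (f : FA k Λ) :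
    W (X := X0 k Λ) w (c • f) = c • W (X := X0 k Λ) w f := by
  induction w with
  | nil => rfl
  | cons x w ih => rw [W_cons, W_cons, ih, smul_comm, Z_smul']

/-- scalars are central -/
theorem mul_emb (f : FA k Λ) (c : k) : f * emb (X0 k Λ) c = c • f := by
  have h1 : emb (X0 k Λ) c = c • (1 : FA k Λ) := by rw [← emb_mul, mul_one]
  induction f using FR.ind with
  | h0 => simp
  | ha f g hf hg => rw [add_mul, hf, hg, smul_add]
  | hs w e =>
    rw [sg_mul, h1, W_smul', W_one, smul_sg, mul_one, smul_sg, smul_sg, mul_comm]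

theorem emb_comm (f : FA k Λ) (c : k) : f * emb (X0 k Λ) c = emb (X0 k Λ) c * f := by
  rw [mul_emb, emb_mul]

theorem mul_smul' (c : k) (f g : FA k Λ) : f * (c • g) = c • (f * g) := by
  rw [← emb_mul, ← mul_assoc, mul_emb, TH34.smul_mul']

theorem sg_single_eq (l : Λ) (e : k) : sg (X0 k Λ) [(l, ())] e = e • zel (X0 k Λ) l := by
  rw [zel_eq, smul_sg, mul_one]

theorem zel_Dg (l : Λ) : zel (X0 k Λ) l ∈ Dg (X0 k Λ) 2 := by
  intro w hw
  rw [zel_eq] at hw
  by_contra h
  apply hw
  apply cf_sg_ne
  rintro rfl
  simp at h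

theorem cf_zel (l l' : Λ) [Decidable (l = l')] :
    cf (X0 k Λ) (zel (X0 k Λ) l) [(l', ())] = if l = l' then 1 else 0 := by
  rw [zel_eq]
  split_ifs with h
  · rw [h]
    exact cf_sg_same (X := X0 k Λ) _ _
  · apply cf_sg_ne
    intro h'
    apply h
    simpa using h'

theorem cf_sum {κ : Type} (s : Finset κ) (f : κ → FA k Λ) (w : List (Λ × Unit)) :
    cf (X0 k Λ) (∑ i ∈ s, f i) w = ∑ i ∈ s, cf (X0 k Λ) (f i) w := by
  classical
  induction s using Finset.induction_on with
  | empty => rfl
  | insert a s ha ih => rw [Finset.sum_insert ha, Finset.sum_insert ha, ← ih]; rfl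

end basics

section star

variable {k Λ : Type} [Field k]

/-- the anti-homomorphism determined by its values on the generators -/
theorem exists_anti (τ : Λ → FA k Λ) : ∃ σ : FA k Λ →+* (FA k Λ)ᵐᵒᵖ,
    (∀ e, σ (emb (X0 k Λ) e) = op (emb (X0 k Λ) e)) ∧
    ∀ l, σ (zel (X0 k Λ) l) = op (τ l) := by
  let φ : k →+* (FA k Λ)ᵐᵒᵖ :=
    { toFun := fun e => op (emb (X0 k Λ) e)
      map_one' := by rw [map_one]; rfl
      map_mul' := by
        intro a b
        rw [← op_mul, ← map_mul, mul_comm]
      map_zero' := by rw [map_zero]; rfl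
      map_add' := by
        intro a b
        rw [map_add, op_add] }
  refine FR_lift (X := X0 k Λ) φ (fun l => op (τ l)) ?_
  intro l u
  change op (τ l) * op (emb (X0 k Λ) u) = op (emb (X0 k Λ) u) * op (τ l) + φ 0
  rw [map_zero, add_zero, ← op_mul, ← op_mul, emb_comm]

variable {V : Type} [AddCommGroup V] [Module k V]

/-- the linear embedding of a vector space with a basis in the free algebra -/
noncomputable def phi (b : Module.Basis Λ k V) : V →ₗ[k] FA k Λ :=
  (Finsupp.linearCombination k (fun l => zel (X0 k Λ) l)).comp b.repr.toLinearMap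

theorem phi_basis (b : Module.Basis Λ k V) (l : Λ) : phi b (b l) = zel (X0 k Λ) l := by
  simp [phi]

theorem phi_Dg (b : Module.Basis Λ k V) (v : V) : phi b v ∈ Dg (X0 k Λ) 2 := by
  unfold phi
  rw [LinearMap.comp_apply, Finsupp.linearCombination_apply, Finsupp.sum]
  apply sum_mem
  intro l _
  exact Dg_smul _ (zel_Dg l)

theorem phi_inj (b : Module.Basis Λ k V) (v : V) (h : phi b v = 0) : v = 0 := by
  classical
  apply b.repr.injective
  ext l
  have h1 := congrArg (fun f => cf (X0 k Λ) f [(l, ())]) h
  simp only [phi, LinearMap.comp_apply, Finsupp.linearCombination_apply, Finsupp.sum] at h1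
  rw [cf_sum, cf_zero] at h1
  simp only [LinearEquiv.coe_coe] at h1
  have h2 : ∑ i ∈ (b.repr v).support, cf (X0 k Λ) ((b.repr v) i • zel (X0 k Λ) i) [(l, ())] =
      b.repr v l := by
    have h3 : ∀ i, cf (X0 k Λ) ((b.repr v) i • zel (X0 k Λ) i) [(l, ())] =
        if i = l then b.repr v i else 0 := by
      intro i
      rw [cf_smul, cf_zel]
      split_ifs <;> simp
    simp only [h3]
    rw [Finset.sum_ite_eq']
    split_ifs with h4
    · rfl
    · exact (Finsupp.notMem_support_iff.mp h4).symm
  rw [h2] at h1
  simpa using h1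

/-- the free algebra with the involution extending a linear involution of the generating space -/
theorem exists_free_star (s : V →ₗ[k] V) (hs : ∀ v, s (s v) = v) (b : Module.Basis Λ k V) :
    ∃ _ : StarRing (FA k Λ), (∀ v, star (phi b v) = phi b (s v)) ∧
      (∀ c, star (emb (X0 k Λ) c) = emb (X0 k Λ) c) ∧
      (∀ f ∈ Dg (X0 k Λ) 2, star f ∈ Dg (X0 k Λ) 2) := by
  classical
  obtain ⟨σ, h1, h2⟩ := exists_anti (fun l => phi b (s (b l)))
  have hsm : ∀ (c : k) (f : FA k Λ), unop (σ (c • f)) = c • unop (σ f) := by
    intro c f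
    rw [← emb_mul, map_mul, h1, unop_mul, unop_op, mul_emb]
  have hphi : ∀ v, unop (σ (phi b v)) = phi b (s v) := by
    let f1 : V →ₗ[k] FA k Λ :=
      { toFun := fun v => unop (σ (phi b v))
        map_add' := by
          intro x y
          rw [map_add, map_add, unop_add]
        map_smul' := by
          intro c x
          rw [map_smul, hsm]
          rfl }
    have hf : f1 = (phi b).comp s := by
      apply b.ext
      intro l
      change unop (σ (phi b (b l))) = phi b (s (b l))
      rw [phi_basis, h2, unop_op]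
    intro v
    exact LinearMap.congr_fun hf v
  have hinv : ∀ f, unop (σ (unop (σ f))) = f := by
    let g : FA k Λ →+* FA k Λ :=
      { toFun := fun f => unop (σ (unop (σ f)))
        map_one' := by simp
        map_mul' := by
          intro x y
          simp
        map_zero' := by simp
        map_add' := by
          intro x y
          simp }
    have hg : g = RingHom.id _ := by
      apply FR_hom_ext (X := X0 k Λ)
      · intro e
        change unop (σ (unop (σ (emb (X0 k Λ) e)))) = emb (X0 k Λ) e
        rw [h1, unop_op, h1, unop_op]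
      · intro l
        change unop (σ (unop (σ (zel (X0 k Λ) l)))) = zel (X0 k Λ) l
        rw [h2, unop_op, hphi, hs, phi_basis]
    intro f
    exact RingHom.congr_fun hg f
  let st : StarRing (FA k Λ) :=
    { star := fun f => unop (σ f)
      star_involutive := hinv
      star_mul := by
        intro x y
        change unop (σ (x * y)) = unop (σ y) * unop (σ x)
        rw [map_mul, unop_mul]
      star_add := by
        intro x y
        change unop (σ (x + y)) = unop (σ x) + unop (σ y)
        rw [map_add, unop_add] }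
  refine ⟨st, hphi, fun c => ?_, ?_⟩
  · change unop (σ (emb (X0 k Λ) c)) = _
    rw [h1, unop_op]
  · intro f hf
    refine Dg_ind (P := fun f => unop (σ f) ∈ Dg (X0 k Λ) 2) f hf ?_ ?_ ?_
    · rw [map_zero, unop_zero]
      exact zero_mem _
    · intro f g hf hg
      rw [map_add, unop_add]
      exact add_mem hf hg
    · intro w e hw
      match w, hw with
      | [], _ =>
        change unop (σ (emb (X0 k Λ) e)) ∈ _
        rw [h1, unop_op]
        exact Dg_mono (by omega) (emb_Dg (X := X0 k Λ) e)
      | [(l, ())], _ =>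
        rw [sg_single_eq, hsm, h2, unop_op]
        exact Dg_smul _ (phi_Dg _ _)
      | (_ :: _ :: _), hw =>
        simp at hw

end star

end Pool.Agent.N23.B20
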