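import Pool.Agent.N23.B20.Lin

set_option autoImplicit false

/-!
# Linear hermitian matrices over the free algebra: anisotropy over the universal field of fractions
-/

namespace Pool.Agent.N23.B20

open Pool.Agent.TH34 Matrix MulOpposite

section em

variable {k Λ : Type} [Field k]

variable (Λ) in
/-- scalar matrices over the free algebra -/
noncomputable def em {α β : Type} (M : Matrix α β k) : Matrix α β (FA k Λ) :=
  M.map (emb (X0 k Λ))

theorem em_mul {α β γ : Type} [Fintype β] (M : Matrix α β k) (N : Matrix β γ k) :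
    em Λ (M * N) = em Λ M * em Λ N := Matrix.map_mul

theorem em_zero {α β : Type} : em Λ (0 : Matrix α β k) = 0 :=
  Matrix.map_zero _ (map_zero (emb (X0 k Λ)))

theorem em_one {α : Type} [DecidableEq α] : em Λ (1 : Matrix α α k) = 1 :=
  Matrix.map_one _ (map_zero (emb (X0 k Λ))) (map_one (emb (X0 k Λ)))

theorem em_inj {α β : Type} {M N : Matrix α β k} (h : em Λ M = em Λ N) : M = N := by
  refine Matrix.ext fun i j => ?_
  exact (emb (X0 k Λ)).injective (congrFun (congrFun h i) j)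

theorem em_conj {α β : Type} [StarRing (FA k Λ)]
    (hse : ∀ c : k, star (emb (X0 k Λ) c) = emb (X0 k Λ) c) (M : Matrix α β k) :
    (em Λ M)ᴴ = em Λ Mᵀ := by
  refine Matrix.ext fun i j => ?_
  exact hse _

theorem em_mul_Dg {α β γ : Type} [Fintype β] (M : Matrix α β k) (N : Matrix β γ (FA k Λ))
    (hN : ∀ i j, N i j ∈ Dg (X0 k Λ) 2) : ∀ i j, (em Λ M * N) i j ∈ Dg (X0 k Λ) 2 := by
  intro i j
  rw [Matrix.mul_apply]
  apply sum_mem
  intro l _
  change emb (X0 k Λ) (M i l) * N l j ∈ _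
  rw [emb_mul]
  exact Dg_smul _ (hN l j)

theorem mul_em_Dg {α β γ : Type} [Fintype β] (N : Matrix α β (FA k Λ)) (M : Matrix β γ k)
    (hN : ∀ i j, N i j ∈ Dg (X0 k Λ) 2) : ∀ i j, (N * em Λ M) i j ∈ Dg (X0 k Λ) 2 := by
  intro i j
  rw [Matrix.mul_apply]
  apply sum_mem
  intro l _
  change N i l * emb (X0 k Λ) (M l j) ∈ _
  rw [mul_emb]
  exact Dg_smul _ (hN i l)

end em

section reduction

variable {k Λ : Type} [Field k] {D : Type} [DivisionRing D] (j : FA k Λ →+* D)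

/-- a representation whose coordinates satisfy a scalar relation can be shortened -/
theorem HR_shorten {n : Type} {m : ℕ} (P : Matrix (Fin (m + 1)) (Fin m) (FA k Λ))
    (C : Matrix (Fin (m + 1)) n k) (ξ : Fin (m + 1) → D) (hP : ∀ a b, P a b ∈ Dg (X0 k Λ) 2)
    (h0 : ξ ᵥ* P.map j = 0)
    (h1 : ∀ x : Fin (m + 1) → D, x ᵥ* P.map j = 0 → ∃ d : D, x = d • ξ)
    (hv : ξ ᵥ* C.map (jk j) ≠ 0) (c : Fin (m + 1) → k) (hc : c ≠ 0)
    (hcξ : ∑ i, ξ i * jk j (c i) = 0) :
    ∃ m' < m, HR j (ξ ᵥ* C.map (jk j)) m' := by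
  classical
  have hξ0 : ξ ≠ 0 := by
    rintro rfl
    apply hv
    rw [Matrix.zero_vecMul]
  obtain ⟨i0, hi0⟩ : ∃ i0, c i0 ≠ 0 := by
    by_contra h
    push Not at h
    exact hc (funext h)
  rcases m with _ | m
  · exfalso
    apply hξ0
    funext i
    rw [Fin.sum_univ_one] at hcξ
    have hi : i = 0 := by omega
    have hi0' : i0 = 0 := by omega
    rw [hi0'] at hi0
    rw [hi]
    rcases mul_eq_zero.mp hcξ with h | h
    · exact h
    · exfalso
      exact hi0 ((map_eq_zero (jk j)).mp h)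
  · refine ⟨m, Nat.lt_succ_self m, ?_⟩
    let ζ : Fin (m + 1) → D := fun i => ξ (i0.succAbove i)
    let B : Matrix (Fin (m + 1)) (Fin (m + 2)) k := fun i =>
      i0.insertNth (α := fun _ => k) (-(c (i0.succAbove i)) * (c i0)⁻¹) (Pi.single i 1)
    have hB0 : ∀ i, B i i0 = -(c (i0.succAbove i)) * (c i0)⁻¹ := fun i =>
      Fin.insertNth_apply_same (α := fun _ => k) i0 _ _
    have hB1 : ∀ i l, B i (i0.succAbove l) = (Pi.single i 1 : Fin (m + 1) → k) l := fun i l =>
      Fin.insertNth_apply_succAbove (α := fun _ => k) i0 _ _ l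
    have hvB : ∀ (z : Fin (m + 1) → D) l, (z ᵥ* B.map (jk j)) (i0.succAbove l) = z l := by
      intro z l
      simp only [Matrix.vecMul, dotProduct, Matrix.map_apply, hB1]
      rw [Finset.sum_eq_single l]
      · rw [Pi.single_eq_same, map_one, mul_one]
      · intro i _ hi
        rw [Pi.single_eq_of_ne hi.symm, map_zero, mul_zero]
      · simp
    have hζB : ζ ᵥ* B.map (jk j) = ξ := by
      funext l
      rcases Fin.eq_self_or_eq_succAbove i0 l with rfl | ⟨l, rfl⟩
      · rw [Fin.sum_univ_succAbove _ l] at hcξ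
        have hcl : jk j (c l) ≠ 0 := fun h => hi0 ((map_eq_zero (jk j)).mp h)
        have h2 : ∑ i, ξ (l.succAbove i) * jk j (c (l.succAbove i)) = - (ξ l * jk j (c l)) :=
          eq_neg_of_add_eq_zero_right hcξ
        simp only [Matrix.vecMul, dotProduct, Matrix.map_apply, hB0, ζ]
        have h3 : ∀ i, ξ (l.succAbove i) * jk j (-(c (l.succAbove i)) * (c l)⁻¹) =
            -(ξ (l.succAbove i) * jk j (c (l.succAbove i))) * (jk j (c l))⁻¹ := by
          intro i
          rw [map_mul, map_neg, map_inv₀, ← mul_assoc, mul_neg]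
        simp only [h3]
        rw [← Finset.sum_mul, Finset.sum_neg_distrib, h2, neg_neg, mul_assoc,
          mul_inv_cancel₀ hcl, mul_one]
      · rw [hvB]
    have hjB : (em Λ B).map j = B.map (jk j) := rfl
    let N : Matrix (Fin (m + 1)) (Fin (m + 1)) (FA k Λ) := em Λ B * P
    have hN : N.map j = B.map (jk j) * P.map j := by
      rw [← hjB]
      exact Matrix.map_mul
    have hζN : ζ ᵥ* N.map j = 0 := by
      rw [hN, ← Matrix.vecMul_vecMul, hζB, h0]
    have hkerN : ∀ x : Fin (m + 1) → D, x ᵥ* N.map j = 0 → ∃ d : D, x = d • ζ := by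
      intro x hx
      rw [hN, ← Matrix.vecMul_vecMul] at hx
      obtain ⟨d, hd⟩ := h1 _ hx
      refine ⟨d, funext fun l => ?_⟩
      rw [← hvB x l, hd]
      rfl
    have hζ0 : ζ ≠ 0 := by
      intro h
      apply hξ0
      rw [← hζB, h, Matrix.zero_vecMul]
    obtain ⟨y, hy0, hy⟩ := exists_col_rel (N.map j) ζ hζ0 hζN
    obtain ⟨j1, hj1⟩ : ∃ j1, y j1 ≠ 0 := by
      by_contra h
      push Not at h
      exact hy0 (funext h)
    refine ⟨N.submatrix id j1.succAbove, B * C, ζ, ?_, ?_, ?_, ?_⟩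
    · intro a b
      exact em_mul_Dg B P hP _ _
    · funext b
      exact congrFun hζN (j1.succAbove b)
    · intro x hx
      apply hkerN
      have h2 : ∀ b, (x ᵥ* N.map j) (j1.succAbove b) = 0 := fun b => congrFun hx b
      have h3 : (x ᵥ* N.map j) j1 = 0 := by
        have h4 : ∑ b, (x ᵥ* N.map j) b * y b = 0 := by
          simp only [Matrix.vecMul, dotProduct, Finset.sum_mul]
          rw [Finset.sum_comm]
          apply Finset.sum_eq_zero
          intro i _
          simp only [mul_assoc]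
          rw [← Finset.mul_sum, hy, mul_zero]
        rw [Fin.sum_univ_succAbove _ j1] at h4
        simp only [h2, zero_mul, Finset.sum_const_zero, add_zero] at h4
        exact (mul_eq_zero.mp h4).resolve_right hj1
      funext b
      rcases Fin.eq_self_or_eq_succAbove j1 b with rfl | ⟨b, rfl⟩
      · exact h3
      · exact h2 b
    · have h2 : (B * C).map (jk j) = B.map (jk j) * C.map (jk j) := Matrix.map_mul
      rw [h2, ← Matrix.vecMul_vecMul, hζB]

end reduction

section aniso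

variable {k Λ : Type} [Field k] [StarRing (FA k Λ)] {D : Type} [DivisionRing D] [StarRing D]
  (j : FA k Λ →+* D)

theorem aniso_core (hse : ∀ c : k, star (emb (X0 k Λ) c) = emb (X0 k Λ) c)
    (hsD : ∀ f ∈ Dg (X0 k Λ) 2, star f ∈ Dg (X0 k Λ) 2)
    (hjs : ∀ a, j (star a) = star (j a))
    (hfull : ∀ (ν : Type) [Fintype ν] [DecidableEq ν] (M : Matrix ν ν (FA k Λ)), ColFull M →
        ∃ N : Matrix ν ν D, M.map j * N = 1 ∧ N * M.map j = 1)
    {n : Type} [Fintype n] [DecidableEq n] (H : Matrix n n (FA k Λ)) (hH : Hᴴ = H)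
    (hlin : ∀ a b, H a b ∈ Dg (X0 k Λ) 2)
    (han : ∀ x : Matrix Unit n k, em Λ x * H * em Λ xᵀ = 0 → x = 0)
    {m : ℕ} (P : Matrix (Fin (m + 1)) (Fin m) (FA k Λ))
    (C : Matrix (Fin (m + 1)) n k) (ξ : Fin (m + 1) → D) (hP : ∀ a b, P a b ∈ Dg (X0 k Λ) 2)
    (hξP : ξ ᵥ* P.map j = 0)
    (hker : ∀ x : Fin (m + 1) → D, x ᵥ* P.map j = 0 → ∃ d : D, x = d • ξ)
    (hiso : ((ξ ᵥ* C.map (jk j)) ᵥ* H.map j) ⬝ᵥ star (ξ ᵥ* C.map (jk j)) = 0)
    (hM1 : ∀ c : Fin (m + 1) → k, ∑ i, ξ i * jk j (c i) = 0 → c = 0) :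
    ξ ᵥ* C.map (jk j) = 0 := by
  classical
  have hem : ∀ {α β : Type} (M : Matrix α β k), (em Λ M).map j = M.map (jk j) := fun M => rfl
  have hmapmul : ∀ {α β γ : Type} [Fintype β] (M : Matrix α β (FA k Λ))
      (N : Matrix β γ (FA k Λ)), (M * N).map j = M.map j * N.map j := fun M N => Matrix.map_mul
  have hmapstar : ∀ {α β : Type} (M : Matrix α β (FA k Λ)), (M.map j)ᴴ = Mᴴ.map j := by
    intro α β M
    refine Matrix.ext fun a b => ?_
    exact (hjs _).symm
  obtain ⟨Hc, hHc⟩ : ∃ Hc : Matrix (Fin (m + 1)) (Fin (m + 1)) (FA k Λ),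
    Hc = em Λ C * H * em Λ Cᵀ := ⟨_, rfl⟩
  have hHcH : Hcᴴ = Hc := by
    rw [hHc, Matrix.conjTranspose_mul, Matrix.conjTranspose_mul, em_conj hse, em_conj hse, hH,
      Matrix.transpose_transpose, Matrix.mul_assoc]
  have hHclin : ∀ a b, Hc a b ∈ Dg (X0 k Λ) 2 := by
    rw [hHc]
    exact mul_em_Dg _ _ (em_mul_Dg _ _ hlin)
  -- the second vector
  obtain ⟨w, hw⟩ : ∃ w : Fin (m + 1) → D, w = ξ ᵥ* Hc.map j := ⟨_, rfl⟩
  have hwξ : w ⬝ᵥ star ξ = 0 := by
    rw [Matrix.star_vecMul, Matrix.dotProduct_mulVec, ← hem, hmapstar, em_conj hse,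
      Matrix.vecMul_vecMul, Matrix.vecMul_vecMul, ← hmapmul, ← hmapmul, ← Matrix.mul_assoc,
      ← hHc, ← hw] at hiso
    exact hiso
  obtain ⟨Q, hQ⟩ := exists_left_inv_rect (P.map j) ξ hker
  obtain ⟨η, hη⟩ : ∃ η : Fin m → D, η = w ᵥ* Qᴴ := ⟨_, rfl⟩
  have hPQ : (P.map j)ᴴ * Qᴴ = 1 := by
    rw [← Matrix.conjTranspose_mul, hQ, Matrix.conjTranspose_one]
  have hηP : η ᵥ* (P.map j)ᴴ = w := by
    obtain ⟨X, hX⟩ : ∃ X : Matrix (Fin (m + 1)) (Fin (m + 1)) D, X = 1 - P.map j * Q := ⟨_, rfl⟩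
    have h1 : ∀ i, ∃ d : D, X i = d • ξ := by
      intro i
      apply hker
      have h2 : X * P.map j = 0 := by
        rw [hX, Matrix.sub_mul, Matrix.mul_assoc, hQ, Matrix.one_mul, Matrix.mul_one, sub_self]
      funext b
      exact congrFun (congrFun h2 i) b
    choose d hd using h1
    have h3 : w ᵥ* Xᴴ = 0 := by
      funext i
      have h4 : (w ᵥ* Xᴴ) i = ∑ a, w a * star (X i a) := rfl
      have h5 : ∀ a, X i a = d i * ξ a := fun a => congrFun (hd i) a
      rw [h4]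
      simp only [h5, star_mul]
      have h6 : ∑ a, w a * (star (ξ a) * star (d i)) = (w ⬝ᵥ star ξ) * star (d i) := by
        rw [dotProduct, Finset.sum_mul]
        apply Finset.sum_congr rfl
        intro a _
        rw [← mul_assoc]
        rfl
      rw [h6, hwξ, zero_mul]
      rfl
    rw [hη, Matrix.vecMul_vecMul, ← Matrix.conjTranspose_mul]
    rw [hX, Matrix.conjTranspose_sub, Matrix.conjTranspose_one, Matrix.vecMul_sub,
      Matrix.vecMul_one, sub_eq_zero] at h3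
    exact h3.symm
  -- the big matrix
  obtain ⟨M, hMdef⟩ : ∃ M : Matrix (Fin (m + 1) ⊕ Fin m) (Fin (m + 1) ⊕ Fin m) (FA k Λ),
    M = Matrix.fromBlocks (-Hc) P Pᴴ 0 := ⟨_, rfl⟩
  have hMH : Mᴴ = M := by
    rw [hMdef, Matrix.fromBlocks_conjTranspose, Matrix.conjTranspose_neg, hHcH,
      Matrix.conjTranspose_conjTranspose, Matrix.conjTranspose_zero]
  have hMlin : ∀ a b, M a b ∈ Dg (X0 k Λ) 2 := by
    rw [hMdef]
    rintro (a | a) (b | b)
    · exact neg_mem (hHclin a b)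
    · exact hP a b
    · exact hsD _ (hP b a)
    · exact zero_mem _
  obtain ⟨κ, hκdef⟩ : ∃ κ : Fin (m + 1) ⊕ Fin m → D, κ = Sum.elim ξ η := ⟨_, rfl⟩
  have hMj : M.map j = Matrix.fromBlocks (-(Hc.map j)) (P.map j) (P.map j)ᴴ 0 := by
    rw [hMdef, Matrix.fromBlocks_map, hmapstar]
    congr 1
    · refine Matrix.ext fun a b => ?_
      exact map_neg j _
    · refine Matrix.ext fun a b => ?_
      exact map_zero j
  have hκ0 : κ ᵥ* M.map j = 0 := by
    rw [hκdef, hMj, Matrix.vecMul_fromBlocks]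
    have e1 : (Sum.elim ξ η ∘ Sum.inl : Fin (m + 1) → D) = ξ := rfl
    have e2 : (Sum.elim ξ η ∘ Sum.inr : Fin m → D) = η := rfl
    rw [e1, e2, hηP, hξP, Matrix.vecMul_neg, ← hw, Matrix.vecMul_zero, neg_add_cancel, add_zero]
    funext a
    rcases a with a | a <;> rfl
  have hκker : ∀ x : Fin (m + 1) ⊕ Fin m → D, x ᵥ* M.map j = 0 → ∃ d : D, x = d • κ := by
    intro x hx
    rw [hMj, Matrix.vecMul_fromBlocks] at hx
    have h1 : x ∘ Sum.inl ᵥ* -(Hc.map j) + x ∘ Sum.inr ᵥ* (P.map j)ᴴ = 0 := by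
      funext a
      exact congrFun hx (Sum.inl a)
    have h2 : x ∘ Sum.inl ᵥ* P.map j = 0 := by
      funext a
      have := congrFun hx (Sum.inr a)
      simpa using this
    obtain ⟨d, hd⟩ := hker _ h2
    refine ⟨d, ?_⟩
    have h3 : x ∘ Sum.inr = d • η := by
      have h4 : x ∘ Sum.inr ᵥ* (P.map j)ᴴ = (d • η) ᵥ* (P.map j)ᴴ := by
        rw [Matrix.smul_vecMul, hηP, hw, ← Matrix.smul_vecMul, ← hd]
        rw [Matrix.vecMul_neg, neg_add_eq_zero] at h1
        exact h1.symm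
      calc x ∘ Sum.inr = (x ∘ Sum.inr ᵥ* (P.map j)ᴴ) ᵥ* Qᴴ := by
            rw [Matrix.vecMul_vecMul, hPQ, Matrix.vecMul_one]
        _ = d • η := by rw [h4, Matrix.vecMul_vecMul, hPQ, Matrix.vecMul_one]
    funext a
    rcases a with a | a
    · rw [hκdef]
      exact congrFun hd a
    · rw [hκdef]
      exact congrFun h3 a
  -- the trivial case
  by_cases hξ0 : ξ = 0
  · rw [hξ0, Matrix.zero_vecMul]
  -- hollow
  have hnf : ¬ ColFull M := by
    intro hf
    obtain ⟨N, hN1, _⟩ := hfull _ M hf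
    have h1 : κ = 0 := by
      calc κ = (κ ᵥ* M.map j) ᵥ* N := by rw [Matrix.vecMul_vecMul, hN1, Matrix.vecMul_one]
        _ = 0 := by rw [hκ0, Matrix.zero_vecMul]
    apply hξ0
    funext a
    have h2 := congrFun h1 (Sum.inl a)
    rw [hκdef] at h2
    exact h2
  have hkm : ∀ {α β γ : Type} [Fintype β] (A : Matrix α β k) (B : Matrix β γ k),
      A.map (jk j) * B.map (jk j) = (A * B).map (jk j) := fun A B => Matrix.map_mul.symm
  have hk1 : ∀ {α : Type} [DecidableEq α], (1 : Matrix α α k).map (jk j) = 1 := fun {α} _ =>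
    Matrix.map_one _ (map_zero (jk j)) (map_one (jk j))
  have hj0 : ∀ {α β : Type}, (0 : Matrix α β (FA k Λ)).map j = 0 := fun {α β} =>
    Matrix.map_zero _ (map_zero j)
  obtain ⟨a, b, hab, S, S', T, T', hS, hT, hSMT⟩ := hollow M hMlin hnf
  have hSMT' : em Λ S * M * em Λ T = 0 := hSMT
  have hTMS : em Λ Tᵀ * M * em Λ Sᵀ = 0 := by
    have h1 := congrArg Matrix.conjTranspose hSMT'
    rw [Matrix.conjTranspose_mul, Matrix.conjTranspose_mul, em_conj hse, em_conj hse, hMH,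
      Matrix.conjTranspose_zero, ← Matrix.mul_assoc] at h1
    exact h1
  obtain ⟨hle1, hx⟩ := ker_hollow (M.map j) κ hκker (S.map (jk j)) (S'.map (jk j))
    (T.map (jk j)) (T'.map (jk j)) (by rw [hkm, hS, hk1]) (by rw [hkm, hT, hk1])
    (by
      have h1 := congrArg (fun X : Matrix _ _ (FA k Λ) => X.map j) hSMT'
      simp only [hmapmul, hem, hj0] at h1
      exact h1)
  obtain ⟨hle2, hy⟩ := ker_hollow (M.map j) κ hκker (Tᵀ.map (jk j)) (T'ᵀ.map (jk j))
    (Sᵀ.map (jk j)) (S'ᵀ.map (jk j))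
    (by rw [hkm, ← Matrix.transpose_mul, hT, Matrix.transpose_one, hk1])
    (by rw [hkm, ← Matrix.transpose_mul, hS, Matrix.transpose_one, hk1])
    (by
      have h1 := congrArg (fun X : Matrix _ _ (FA k Λ) => X.map j) hTMS
      simp only [hmapmul, hem, hj0] at h1
      exact h1)
  obtain ⟨x, hx⟩ := hx (by omega)
  obtain ⟨y, hy⟩ := hy (by omega)
  rw [Fintype.card_sum, Fintype.card_fin, Fintype.card_fin] at hab hle1
  -- a general statement about the two families of rows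
  have key : ∀ {a : ℕ} (S : Matrix (Fin a) (Fin (m + 1) ⊕ Fin m) k) (x : Fin a → D),
      κ = x ᵥ* S.map (jk j) → m + 1 ≤ a ∧ (a = m + 1 →
        ∃ (L : Matrix (Fin (m + 1)) (Fin m) k) (R : Matrix (Fin (m + 1)) (Fin a) k),
          R * S = Matrix.fromCols 1 L ∧ η = ξ ᵥ* L.map (jk j)) := by
    intro a S x hx
    have hinj : ∀ c : Fin (m + 1) → k, (S.submatrix id Sum.inl) *ᵥ c = 0 → c = 0 := by
      intro c hc
      apply hM1
      have h1 : ∀ i, ξ i = ∑ l, x l * jk j (S l (Sum.inl i)) := by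
        intro i
        have h2 := congrFun hx (Sum.inl i)
        rw [hκdef] at h2
        exact h2
      have h3 : ∑ i, ξ i * jk j (c i) =
          ∑ l, x l * jk j (((S.submatrix id Sum.inl) *ᵥ c) l) := by
        simp only [h1, Finset.sum_mul, Matrix.mulVec, dotProduct, map_sum, map_mul,
          Finset.mul_sum, Matrix.submatrix_apply, id]
        rw [Finset.sum_comm]
        simp only [mul_assoc]
      rw [h3, hc]
      simp
    have hle := card_le_of_col_inj _ hinj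
    rw [Fintype.card_fin] at hle
    refine ⟨hle, ?_⟩
    intro ha
    subst ha
    obtain ⟨R, hR1, hR2⟩ := inv_of_col_inj _ hinj
    have hSd : S = Matrix.fromCols (S.submatrix id Sum.inl) (S.submatrix id Sum.inr) := by
      refine Matrix.ext fun a b => ?_
      rcases b with b | b <;> rfl
    refine ⟨R * S.submatrix id Sum.inr, R, ?_, ?_⟩
    · conv_lhs => rw [hSd]
      rw [Matrix.mul_fromCols, hR1]
    · have h1 : ξ = x ᵥ* (S.submatrix id Sum.inl).map (jk j) := by
        funext i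
        have h2 := congrFun hx (Sum.inl i)
        rw [hκdef] at h2
        exact h2
      have h2 : η = x ᵥ* (S.submatrix id Sum.inr).map (jk j) := by
        funext i
        have h2 := congrFun hx (Sum.inr i)
        rw [hκdef] at h2
        exact h2
      have h3 : x = ξ ᵥ* R.map (jk j) := by
        rw [h1, Matrix.vecMul_vecMul, hkm, hR2, hk1, Matrix.vecMul_one]
      rw [h2, h3, Matrix.vecMul_vecMul, hkm]
  obtain ⟨ha1, ha2⟩ := key S x hx
  obtain ⟨hb1, hb2⟩ := key Tᵀ y hy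
  obtain ⟨L, R, hRS, hηL⟩ := ha2 (by omega)
  obtain ⟨L', R', hRT, hηL'⟩ := hb2 (by omega)
  have hLL : L = L' := by
    refine Matrix.ext fun i l => ?_
    have h1 : (fun i => L i l - L' i l) = 0 := by
      apply hM1
      simp only [map_sub, mul_sub, Finset.sum_sub_distrib]
      have h2 := congrFun (hηL.symm.trans hηL') l
      exact sub_eq_zero.mpr h2
    exact sub_eq_zero.mp (congrFun h1 i)
  have hHL : Hc = em Λ L * Pᴴ + P * em Λ Lᵀ := by
    have h1 : em Λ (R * S) * M * em Λ (R' * Tᵀ)ᵀ = 0 := by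
      rw [Matrix.transpose_mul, Matrix.transpose_transpose, em_mul, em_mul]
      have h2 : em Λ R * em Λ S * M * (em Λ T * em Λ R'ᵀ) =
          em Λ R * (em Λ S * M * em Λ T) * em Λ R'ᵀ := by
        simp only [Matrix.mul_assoc]
      rw [h2, hSMT', Matrix.mul_zero, Matrix.zero_mul]
    rw [hRS, hRT, ← hLL, Matrix.transpose_fromCols, Matrix.transpose_one] at h1
    have h3 : em Λ (Matrix.fromCols (1 : Matrix (Fin (m + 1)) (Fin (m + 1)) k) L) =
        Matrix.fromCols 1 (em Λ L) := by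
      refine Matrix.ext fun a b => ?_
      rcases b with b | b
      · exact congrFun (congrFun (em_one (Λ := Λ) (k := k) (α := Fin (m + 1))) a) b
      · rfl
    have h4 : em Λ (Matrix.fromRows (1 : Matrix (Fin (m + 1)) (Fin (m + 1)) k) Lᵀ) =
        Matrix.fromRows 1 (em Λ Lᵀ) := by
      refine Matrix.ext fun a b => ?_
      rcases a with a | a
      · exact congrFun (congrFun (em_one (Λ := Λ) (k := k) (α := Fin (m + 1))) a) b
      · rfl
    rw [h3, h4, hMdef, Matrix.fromCols_mul_fromBlocks, Matrix.fromCols_mul_fromRows] at h1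
    simp only [Matrix.one_mul, Matrix.mul_one, Matrix.mul_zero, add_zero] at h1
    rw [add_assoc, neg_add_eq_zero] at h1
    exact h1
  -- the final step
  obtain ⟨a', b', S3, S3', T3, T3', R3, hcard, hS3, hS3L, hT3, hT3L⟩ := rank_split L
  have hS3C : S3 * C = 0 := by
    refine Matrix.ext fun i l => ?_
    let r : Matrix Unit (Fin (m + 1)) k := fun _ => S3 i
    have hrL : r * L = 0 := by
      refine Matrix.ext fun _ l => ?_
      exact congrFun (congrFun hS3L i) l
    have h1 : r * C = 0 := by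
      apply han
      rw [Matrix.transpose_mul, em_mul, em_mul]
      have h2 : em Λ r * em Λ C * H * (em Λ Cᵀ * em Λ rᵀ) = em Λ r * Hc * em Λ rᵀ := by
        rw [hHc]
        simp only [Matrix.mul_assoc]
      have h3 : em Λ r * (em Λ L * Pᴴ + P * em Λ Lᵀ) * em Λ rᵀ =
          (em Λ r * em Λ L) * Pᴴ * em Λ rᵀ + em Λ r * P * (em Λ Lᵀ * em Λ rᵀ) := by
        simp only [Matrix.mul_assoc, Matrix.mul_add, Matrix.add_mul]
      rw [h2, hHL, h3, ← em_mul, ← em_mul, ← Matrix.transpose_mul, hrL, Matrix.transpose_zero,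
        em_zero, em_zero, Matrix.zero_mul, Matrix.zero_mul, Matrix.mul_zero, add_zero]
    exact congrFun (congrFun h1 ()) l
  have hS3P : em Λ S3 * P * em Λ Lᵀ = 0 := by
    have h1 : em Λ S3 * Hc = 0 := by
      rw [hHc, ← Matrix.mul_assoc, ← Matrix.mul_assoc, ← em_mul, hS3C, em_zero, Matrix.zero_mul,
        Matrix.zero_mul]
    rw [hHL, Matrix.mul_add, ← Matrix.mul_assoc, ← em_mul, hS3L, em_zero, Matrix.zero_mul,
      zero_add, ← Matrix.mul_assoc] at h1
    exact h1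
  obtain ⟨_, hz⟩ := ker_hollow (P.map j) ξ hker (S3.map (jk j)) (S3'.map (jk j))
    (T3.map (jk j)) (T3'.map (jk j)) (by rw [hkm, hS3, hk1]) (by rw [hkm, hT3, hk1])
    (by
      have h1 : em Λ S3 * P * em Λ T3 = 0 := by
        rw [hT3L, em_mul, ← Matrix.mul_assoc, hS3P, Matrix.zero_mul]
      have h2 := congrArg (fun X : Matrix _ _ (FA k Λ) => X.map j) h1
      simp only [hmapmul, hem, hj0] at h2
      exact h2)
  rw [Fintype.card_fin] at hcard hz
  obtain ⟨z, hz⟩ := hz hcard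
  rw [hz, Matrix.vecMul_vecMul, hkm, hS3C]
  have h1 : (0 : Matrix (Fin a') n k).map (jk j) = 0 := Matrix.map_zero _ (map_zero (jk j))
  rw [h1, Matrix.vecMul_zero]

/-- **Anisotropy** -/
theorem aniso (hse : ∀ c : k, star (emb (X0 k Λ) c) = emb (X0 k Λ) c)
    (hsD : ∀ f ∈ Dg (X0 k Λ) 2, star f ∈ Dg (X0 k Λ) 2)
    (hjs : ∀ a, j (star a) = star (j a))
    (hfull : ∀ (ν : Type) [Fintype ν] [DecidableEq ν] (M : Matrix ν ν (FA k Λ)), ColFull M →
        ∃ N : Matrix ν ν D, M.map j * N = 1 ∧ N * M.map j = 1)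
    (hgen : ∀ K : Subfield D, (∀ a, j a ∈ K) → ∀ x, x ∈ K)
    {n : Type} [Fintype n] [DecidableEq n] (H : Matrix n n (FA k Λ)) (hH : Hᴴ = H)
    (hlin : ∀ a b, H a b ∈ Dg (X0 k Λ) 2)
    (han : ∀ x : Matrix Unit n k, em Λ x * H * em Λ xᵀ = 0 → x = 0)
    (v : n → D) (hv : (v ᵥ* H.map j) ⬝ᵥ star v = 0) : v = 0 := by
  classical
  by_contra hv0
  have hex : ∃ m, ∃ v : n → D, v ≠ 0 ∧ (v ᵥ* H.map j) ⬝ᵥ star v = 0 ∧ HR j v m := by
    obtain ⟨m, hm⟩ := exists_HR hgen v
    exact ⟨m, v, hv0, hv, hm⟩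
  obtain ⟨m, hm1, hm2⟩ : ∃ m, (∃ v : n → D, v ≠ 0 ∧ (v ᵥ* H.map j) ⬝ᵥ star v = 0 ∧ HR j v m) ∧
      ∀ m' < m, ¬ ∃ v : n → D, v ≠ 0 ∧ (v ᵥ* H.map j) ⬝ᵥ star v = 0 ∧ HR j v m' :=
    ⟨Nat.find hex, Nat.find_spec hex, fun m' hm' => Nat.find_min hex hm'⟩
  obtain ⟨v, hv0, hv, P, C, ξ, hP, hξP, hker, hvξ⟩ := hm1
  rw [hvξ] at hv hv0
  apply hv0
  apply aniso_core j hse hsD hjs hfull H hH hlin han P C ξ hP hξP hker hv
  intro c hcξ
  by_contra hc
  obtain ⟨m', hm', hr⟩ := HR_shorten j P C ξ hP hξP hker hv0 c hc hcξ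
  exact hm2 m' hm' ⟨_, hv0, hv, hr⟩

end aniso

end Pool.Agent.N23.B20
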