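import Pool.Agent.N23.B20.Adj
import Pool.Agent.N23.B20.Aniso

set_option autoImplicit false

/-!
# Approximation of star-regular algebras by artinian star-regular rings
-/

namespace Pool.Agent.N23.B20

open Pool.Agent.TH34 Matrix MulOpposite Filter

section app

variable {Λ D R : Type} [DecidableEq Λ] [DivisionRing D] [StarRing D] [Ring R] [StarRing R]
  (h : ∀ F : Finset Λ, Herm F D) (co : ∀ F : Finset Λ, R →+ (F → D))

/-- the family `X` of matrices approximates the right multiplication by `x` -/
def App (x : R) (X : ∀ F : Finset Λ, Adj (h F)) : Prop :=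
  ∀ r : R, ∀ᶠ F in atTop, co F r ᵥ* toM (h F) (X F) = co F (r * x)

variable {h co}

theorem App.zero : App h co 0 (fun _ => 0) := by
  intro r
  apply Eventually.of_forall
  intro F
  rw [toM_zero, Matrix.vecMul_zero, mul_zero, map_zero]

theorem App.one : App h co 1 (fun _ => 1) := by
  intro r
  apply Eventually.of_forall
  intro F
  rw [toM_one, Matrix.vecMul_one, mul_one]

theorem App.add {x y : R} {X Y : ∀ F : Finset Λ, Adj (h F)} (hx : App h co x X)
    (hy : App h co y Y) : App h co (x + y) (fun F => X F + Y F) := by
  intro r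
  filter_upwards [hx r, hy r] with F h1 h2
  rw [toM_add, Matrix.vecMul_add, h1, h2, mul_add, map_add]

theorem App.neg {x : R} {X : ∀ F : Finset Λ, Adj (h F)} (hx : App h co x X) :
    App h co (-x) (fun F => -(X F)) := by
  intro r
  filter_upwards [hx r] with F h1
  rw [toM_neg, Matrix.vecMul_neg, h1, mul_neg, map_neg]

theorem App.mul {x y : R} {X Y : ∀ F : Finset Λ, Adj (h F)} (hx : App h co x X)
    (hy : App h co y Y) : App h co (x * y) (fun F => X F * Y F) := by
  intro r
  filter_upwards [hx r, hy (r * x)] with F h1 h2
  rw [toM_mul, ← Matrix.vecMul_vecMul, h1, h2, mul_assoc]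

theorem App.mp (hR : StarRegular R) {x : R} {X : ∀ F : Finset Λ, Adj (h F)}
    (hx : App h co x X) (hx' : App h co (star x) (fun F => star (X F))) :
    App h co (mpInv x) (fun F => mpInv (X F)) := by
  intro r
  have hc := hR.isMP x
  obtain ⟨c, hcdef⟩ : ∃ c, c = mpInv x := ⟨_, rfl⟩
  rw [← hcdef] at hc ⊢
  have e1 : (r - r * c * x) * star x = 0 := by
    have h1 : star x = c * x * star x := by
      calc star x = star (x * c * x) := by rw [hc.axa]
        _ = star (c * x) * star x := by rw [← star_mul, mul_assoc]
        _ = c * x * star x := by rw [hc.xa_star]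
    rw [sub_mul, sub_eq_zero]
    conv_lhs => rw [h1]
    simp only [mul_assoc]
  have e2 : r * c = r * c * star c * star x := by
    calc r * c = r * (c * x * c) := by rw [hc.xax]
      _ = r * c * (x * c) := by simp only [mul_assoc]
      _ = r * c * star (x * c) := by rw [hc.ax_star]
      _ = r * c * star c * star x := by rw [star_mul, ← mul_assoc]
  filter_upwards [hx' (r - r * c * x), hx (r * c), hx' (r * c * star c)] with F h1 h2 h3
  rw [e1, map_zero] at h1
  rw [← e2] at h3
  have hC := (adj_starRegular (h F)).isMP (X F)
  obtain ⟨C, hCdef⟩ : ∃ C, C = mpInv (X F) := ⟨_, rfl⟩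
  rw [← hCdef] at hC ⊢
  have f1 : C = star (X F) * (star C * C) := by
    calc C = C * X F * C := by rw [hC.xax]
      _ = star (C * X F) * C := by rw [hC.xa_star]
      _ = star (X F) * (star C * C) := by rw [star_mul, mul_assoc]
  have f2 : star (X F) * (X F * C) = star (X F) := by
    calc star (X F) * (X F * C) = star (X F) * star (X F * C) := by rw [hC.ax_star]
      _ = star (X F * C * X F) := by rw [← star_mul]
      _ = star (X F) := by rw [hC.axa]
  have g1 : co F (r - r * c * x) ᵥ* toM (h F) C = 0 := by
    rw [f1, toM_mul, ← Matrix.vecMul_vecMul, h1, Matrix.zero_vecMul]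
  have g2 : co F (r * c * x) ᵥ* toM (h F) C = co F (r * c) := by
    rw [← h2, ← h3, Matrix.vecMul_vecMul, Matrix.vecMul_vecMul, ← toM_mul, ← toM_mul, mul_assoc, f2]
  have g3 : co F r = co F (r - r * c * x) + co F (r * c * x) := by
    rw [← map_add, sub_add_cancel]
  rw [g3, Matrix.add_vecMul, g1, g2, zero_add]

/-- evaluation of terms in the approximating rings -/
theorem App.term (hR : StarRegular R) (v : ℕ → R) (V : ∀ F : Finset Λ, ℕ → Adj (h F))
    (hv : ∀ n, App h co (v n) (fun F => V F n))
    (hv' : ∀ n, App h co (star (v n)) (fun F => star (V F n))) (t : Term) :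
    App h co (t.eval v) (fun F => t.eval (V F)) ∧
      App h co (star (t.eval v)) (fun F => star (t.eval (V F))) := by
  induction t with
  | var n => exact ⟨hv n, hv' n⟩
  | zero =>
    refine ⟨App.zero, ?_⟩
    simp only [Term.eval, star_zero]
    exact App.zero
  | one =>
    refine ⟨App.one, ?_⟩
    simp only [Term.eval, star_one]
    exact App.one
  | add s t hs ht =>
    refine ⟨hs.1.add ht.1, ?_⟩
    simp only [Term.eval, star_add]
    exact hs.2.add ht.2
  | neg s hs =>
    refine ⟨hs.1.neg, ?_⟩
    simp only [Term.eval, star_neg]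
    exact hs.2.neg
  | mul s t hs ht =>
    refine ⟨hs.1.mul ht.1, ?_⟩
    simp only [Term.eval, star_mul]
    exact ht.2.mul hs.2
  | star s hs =>
    refine ⟨hs.2, ?_⟩
    simp only [Term.eval, star_star]
    exact hs.1
  | mp s hs =>
    refine ⟨App.mp hR hs.1 hs.2, ?_⟩
    simp only [Term.eval]
    rw [← hR.mpInv_star]
    have h1 : ∀ F : Finset Λ, star (mpInv (s.eval (V F))) = mpInv (star (s.eval (V F))) :=
      fun F => ((adj_starRegular (h F)).mpInv_star _).symm
    simp only [h1]
    apply App.mp hR hs.2
    simp only [star_star]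
    exact hs.1

end app

section main

variable {k R : Type} [Field k] [Ring R] [StarRing R] [Algebra k R]

/-- every star-regular algebra over a field with trivial involution lies in the variety -/
theorem inVarietyA_of_algebra (hR : StarRegular R)
    (hks : ∀ (c : k) (x : R), star (c • x) = c • star x) : InVarietyA R := by
  classical
  intro s t hst v
  let Λ : Type := Module.Basis.ofVectorSpaceIndex k R
  let b : Module.Basis Λ k R := Module.Basis.ofVectorSpace k R
  let sl : R →ₗ[k] R :=
    { toFun := star
      map_add' := star_add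
      map_smul' := hks }
  obtain ⟨stA, hphi, hse, hsD⟩ := exists_free_star sl (fun v => star_star v) b
  obtain ⟨D, iD, stD, j, hjs, hfull, hgen⟩ := exists_star_field (FA k Λ) (FR_TProp (X := X0 k Λ))
  have hphi' : ∀ x : R, star (phi b x) = phi b (star x) := hphi
  -- the hermitian forms
  have hex : ∀ F : Finset Λ, ∃ h : Herm F D, h.H = fun (i l : F) => j (phi b (b i * star (b l))) := by
    intro F
    let H0 : Matrix F F (FA k Λ) := fun i l => phi b (b i * star (b l))
    have hH0 : H0ᴴ = H0 := by
      refine Matrix.ext fun i l => ?_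
      change star (phi b (b l * star (b i))) = phi b (b i * star (b l))
      rw [hphi', star_mul, star_star]
    have han : ∀ x : Matrix Unit F k, em Λ x * H0 * em Λ xᵀ = 0 → x = 0 := by
      intro x hx
      obtain ⟨u, hu⟩ : ∃ u : R, u = ∑ i : F, x () i • b i := ⟨_, rfl⟩
      have h1 : phi b (u * star u) = 0 := by
        have h2 := congrFun (congrFun hx ()) ()
        rw [Matrix.zero_apply] at h2
        rw [← h2, Matrix.mul_apply, hu, star_sum, Finset.mul_sum, map_sum]
        apply Finset.sum_congr rfl
        intro l _
        have h3 : em Λ xᵀ l () = emb (X0 k Λ) (x () l) := rfl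
        rw [h3, mul_emb, Matrix.mul_apply, hks, mul_smul_comm, map_smul, Finset.sum_mul, map_sum]
        congr 1
        apply Finset.sum_congr rfl
        intro i _
        have h4 : em Λ x () i = emb (X0 k Λ) (x () i) := rfl
        rw [h4, emb_mul, smul_mul_assoc, map_smul]
      have h2 : u * star u = 0 := phi_inj b _ h1
      have h3 : star u = 0 := by
        apply hR.proper
        rw [star_star]
        exact h2
      have h4 : u = 0 := by
        rw [← star_star u, h3, star_zero]
      rw [hu] at h4
      have h5 : LinearIndependent k (fun i : F => b i) :=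
        b.linearIndependent.comp _ Subtype.val_injective
      refine Matrix.ext fun a i => ?_
      exact Fintype.linearIndependent_iff.mp h5 (fun i => x () i) h4 i
    have hani : ∀ v : F → D, (v ᵥ* H0.map j) ⬝ᵥ star v = 0 → v = 0 :=
      aniso j hse hsD hjs hfull hgen H0 hH0 (fun _ _ => phi_Dg b _) han
    have hHH : (H0.map j)ᴴ = H0.map j := by
      refine Matrix.ext fun i l => ?_
      change star (j (H0 l i)) = j (H0 i l)
      rw [← hjs]
      congr 1
      exact congrFun (congrFun hH0 i) l
    obtain ⟨N, hN⟩ := exists_left_inv_of_inj (H0.map j) (by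
      intro x hx
      apply hani
      rw [hx, zero_dotProduct])
    have hN' : H0.map j * Nᴴ = 1 := by
      have := congrArg Matrix.conjTranspose hN
      rwa [Matrix.conjTranspose_mul, hHH, Matrix.conjTranspose_one] at this
    have hNN : Nᴴ = N := by
      calc Nᴴ = (N * H0.map j) * Nᴴ := by rw [hN, Matrix.one_mul]
        _ = N := by rw [Matrix.mul_assoc, hN', Matrix.mul_one]
    exact ⟨⟨H0.map j, N, hHH, hNN, by rw [← hNN]; exact hN', hN, hani⟩, rfl⟩
  choose h hh using hex
  -- coordinates
  let co : ∀ F : Finset Λ, R →+ (F → D) := fun F =>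
    { toFun := fun r i => jk j (b.repr r i)
      map_zero' := by
        funext i
        simp
      map_add' := by
        intro x y
        funext i
        simp }
  have hco : ∀ (F : Finset Λ) (r : R) (i : F), co F r i = jk j (b.repr r i) := fun _ _ _ => rfl
  -- the matrices
  let PF : ∀ F : Finset Λ, R → Matrix F F D := fun F a i l => j (phi b (b i * a * star (b l)))
  have hPF : ∀ (F : Finset Λ) (a : R) (i l : F), PF F a i l = j (phi b (b i * a * star (b l))) := fun _ _ _ _ => rfl
  have hsum : ∀ (F : Finset Λ) (r a : R) (l : F), (b.repr r).support ⊆ F →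
      (co F r ᵥ* PF F a) l = j (phi b (r * a * star (b l))) := by
    intro F r a l hF
    have h1 : (co F r ᵥ* PF F a) l = ∑ i : F, jk j (b.repr r i) * j (phi b (b i * a * star (b l))) :=
      rfl
    have h2 : ∀ i : F, jk j (b.repr r i) * j (phi b (b i * a * star (b l))) =
        j (phi b ((b.repr r i • b i) * a * star (b l))) := by
      intro i
      have : jk j (b.repr r i) = j (emb (X0 k Λ) (b.repr r i)) := rfl
      rw [this, ← map_mul, emb_mul, smul_mul_assoc, smul_mul_assoc, (phi b).map_smul]
    rw [h1]
    simp only [h2]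
    rw [← map_sum, ← map_sum, ← Finset.sum_mul, ← Finset.sum_mul]
    have h3 : ∑ i : F, b.repr r i • b i = r := by
      rw [Finset.sum_coe_sort F (fun i => b.repr r i • b i)]
      conv_rhs => rw [← b.linearCombination_repr r, Finsupp.linearCombination_apply, Finsupp.sum]
      symm
      apply Finset.sum_subset hF
      intro i _ hi
      rw [Finsupp.notMem_support_iff.mp hi, zero_smul]
    rw [h3]
  let V : ∀ F : Finset Λ, ℕ → Adj (h F) := fun F n => ofM (h F) (PF F (v n) * (h F).N)
  have hstarV : ∀ F n, star (V F n) = ofM (h F) (PF F (star (v n)) * (h F).N) := by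
    intro F n
    apply toM_inj
    rw [toM_star]
    change (h F).H * (PF F (v n) * (h F).N)ᴴ * (h F).N = PF F (star (v n)) * (h F).N
    rw [Matrix.conjTranspose_mul, (h F).hN, ← Matrix.mul_assoc, (h F).h1, Matrix.one_mul]
    congr 1
    refine Matrix.ext fun i l => ?_
    change star (j (phi b (b l * v n * star (b i)))) = j (phi b (b i * star (v n) * star (b l)))
    rw [← hjs, hphi']
    congr 2
    simp only [star_mul, star_star, mul_assoc]
  have hApp : ∀ a : R, App h co a (fun F => ofM (h F) (PF F a * (h F).N)) := by
    intro a r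
    filter_upwards [eventually_ge_atTop ((b.repr r).support ∪ (b.repr (r * a)).support)] with F hF
    have hF1 : (b.repr r).support ⊆ F := Finset.union_subset_left hF
    have hF2 : (b.repr (r * a)).support ⊆ F := Finset.union_subset_right hF
    have h1 : co F r ᵥ* PF F a = co F (r * a) ᵥ* (h F).H := by
      funext l
      rw [hsum F r a l hF1]
      have h2 : (h F).H = PF F 1 := by
        rw [hh]
        refine Matrix.ext fun i l => ?_
        rw [hPF, mul_one]
      rw [h2, hsum F (r * a) 1 l hF2, mul_one]
    rw [toM_ofM, ← Matrix.vecMul_vecMul, h1, Matrix.vecMul_vecMul, (h F).h1, Matrix.vecMul_one]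
  have hterm := App.term (h := h) (co := co) hR v V (fun n => hApp (v n)) (by
    intro n
    simp only [hstarV]
    exact hApp (star (v n)))
  have hs1 := (hterm s).1 1
  have ht1 := (hterm t).1 1
  have hev : ∀ᶠ F in (atTop : Filter (Finset Λ)), co F (s.eval v) = co F (t.eval v) := by
    filter_upwards [hs1, ht1] with F h1 h2
    rw [one_mul] at h1 h2
    rw [← h1, ← h2, hst (Adj (h F)) (adj_starRegular (h F)) (adj_artinian (h F)) (V F)]
  obtain ⟨F, hF1, hF2⟩ := (hev.and (eventually_ge_atTop
    ((b.repr (s.eval v)).support ∪ (b.repr (t.eval v)).support))).exists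
  apply b.repr.injective
  ext i
  by_cases hi : i ∈ F
  · have h1 := congrFun hF1 ⟨i, hi⟩
    rw [hco, hco] at h1
    exact (jk j).injective h1
  · have h1 : i ∉ (b.repr (s.eval v)).support := fun h' => hi (Finset.union_subset_left hF2 h')
    have h2 : i ∉ (b.repr (t.eval v)).support := fun h' => hi (Finset.union_subset_right hF2 h')
    rw [Finsupp.notMem_support_iff.mp h1, Finsupp.notMem_support_iff.mp h2]

end main

end Pool.Agent.N23.B20
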