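import Mathlib

set_option autoImplicit false

/-!
# Star-regular rings, terms and identities
-/

namespace Pool.Agent.N23.B20

universe u

/-- Terms in the signature `(+, -, ·, 0, 1, *, ⁺)` over the variables `x_0, x_1, …`. -/
inductive Term : Type
  | var (n : ℕ) : Term
  | zero : Term
  | one : Term
  | add (s t : Term) : Term
  | neg (s : Term) : Term
  | mul (s t : Term) : Term
  | star (s : Term) : Term
  | mp (s : Term) : Term

/-- `x` is a Moore-Penrose inverse of `a`. -/
structure IsMP {S : Type u} [Ring S] [StarRing S] (a x : S) : Prop where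
  axa : a * x * a = a
  xax : x * a * x = x
  ax_star : star (a * x) = a * x
  xa_star : star (x * a) = x * a

open Classical in
/-- The Moore-Penrose inverse (the junk value `0` where there is none; in a `*`-regular ring
every element has exactly one). -/
noncomputable def mpInv {S : Type u} [Ring S] [StarRing S] (a : S) : S :=
  if h : ∃ x, IsMP a x then h.choose else 0

/-- The value of a term at an assignment of the variables. -/
noncomputable def Term.eval {S : Type u} [Ring S] [StarRing S] (v : ℕ → S) : Term → S
  | var n => v n
  | zero => 0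
  | one => 1
  | add s t => s.eval v + t.eval v
  | neg s => - s.eval v
  | mul s t => s.eval v * t.eval v
  | star s => Star.star (s.eval v)
  | mp s => mpInv (s.eval v)

/-- `*`-regular rings: von Neumann regular rings with a proper involution. -/
structure StarRegular (S : Type u) [Ring S] [StarRing S] : Prop where
  regular : ∀ a : S, ∃ x : S, a * x * a = a
  proper : ∀ x : S, star x * x = 0 → x = 0

/-- Membership of a `*`-regular ring in the variety `𝒜`: every identity that holds in all artinian
`*`-regular rings holds in `R`. -/
def InVarietyA (R : Type u) [Ring R] [StarRing R] : Prop :=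
  ∀ s t : Term,
    (∀ (S : Type) [Ring S] [StarRing S], StarRegular S → IsArtinianRing S →
      ∀ v : ℕ → S, s.eval v = t.eval v) →
    ∀ v : ℕ → R, s.eval v = t.eval v

section mp

variable {S : Type u} [Ring S] [StarRing S]

theorem IsMP.unique {a x y : S} (hx : IsMP a x) (hy : IsMP a y) : x = y := by
  have h1 : x = x * (a * y) := by
    calc x = x * (a * x) := by rw [← mul_assoc, hx.xax]
      _ = x * star (a * x) := by rw [hx.ax_star]
      _ = x * star (a * y * a * x) := by rw [hy.axa]
      _ = x * (star (a * x) * star (a * y)) := by rw [← star_mul, mul_assoc (a * y)]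
      _ = x * a * x * (a * y) := by rw [hx.ax_star, hy.ax_star]; simp only [mul_assoc]
      _ = x * (a * y) := by rw [hx.xax]
  have h2 : y = (x * a) * y := by
    calc y = (y * a) * y := by rw [hy.xax]
      _ = star (y * a) * y := by rw [hy.xa_star]
      _ = star (y * (a * x * a)) * y := by rw [hx.axa]
      _ = star ((y * a) * (x * a)) * y := by simp only [mul_assoc]
      _ = (x * a) * (y * a) * y := by rw [star_mul, hy.xa_star, hx.xa_star]
      _ = (x * a) * y := by rw [mul_assoc, hy.xax]
  rw [h1, ← mul_assoc, ← h2]

theorem mpInv_eq {a x : S} (h : IsMP a x) : mpInv a = x := by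
  unfold mpInv
  have hex : ∃ x, IsMP a x := ⟨x, h⟩
  rw [dif_pos hex]
  exact hex.choose_spec.unique h

theorem StarRegular.left_cancel (hS : StarRegular S) {a y : S} (h : star a * (a * y) = 0) :
    a * y = 0 := by
  apply hS.proper
  rw [star_mul, mul_assoc, h, mul_zero]

theorem StarRegular.exists_left (hS : StarRegular S) (a : S) :
    ∃ x, a * x * star a * a = a := by
  obtain ⟨x, hx⟩ := hS.regular (star a * a)
  refine ⟨x, ?_⟩
  have h1 : a * (x * star a * a - 1) = 0 := by
    apply hS.left_cancel
    have h2 : star a * (a * (x * star a * a - 1)) = star a * a * x * (star a * a) - star a * a := by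
      simp only [mul_sub, mul_one, mul_assoc]
    rw [h2, hx, sub_self]
  rw [mul_sub, mul_one, sub_eq_zero] at h1
  simp only [mul_assoc] at h1 ⊢
  exact h1

/-- a hermitian idempotent generating `a S` -/
theorem StarRegular.exists_inner_left (hS : StarRegular S) (a : S) :
    ∃ b, a * b * a = a ∧ star (a * b) = a * b := by
  obtain ⟨x, hx⟩ := hS.exists_left a
  have h1 : a * (x * star a) * a = a := by rw [← mul_assoc]; exact hx
  have h2 : (a * (x * star a)) * star (a * (x * star a)) = star (a * (x * star a)) := by
    have h3 : star (a * (x * star a)) = a * star x * star a := by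
      simp only [star_mul, star_star, mul_assoc]
    rw [h3]
    have h4 : a * (x * star a) * (a * star x * star a) =
        (a * (x * star a) * a) * star x * star a := by simp only [mul_assoc]
    rw [h4, h1]
  refine ⟨x * star a, h1, ?_⟩
  have h3 := congrArg star h2
  rw [star_mul, star_star] at h3
  rw [← h2, h3]

theorem StarRegular.exists_inner_right (hS : StarRegular S) (a : S) :
    ∃ c, a * c * a = a ∧ star (c * a) = c * a := by
  obtain ⟨b, h1, h2⟩ := hS.exists_inner_left (star a)
  refine ⟨star b, ?_, ?_⟩
  · have := congrArg star h1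
    simpa only [star_mul, star_star, mul_assoc] using this
  · have := congrArg star h2
    rw [star_star] at this
    rw [star_mul, star_star]
    rw [star_mul, star_star] at this
    exact this

theorem StarRegular.exists_mp (hS : StarRegular S) (a : S) : ∃ x, IsMP a x := by
  obtain ⟨b, hb1, hb2⟩ := hS.exists_inner_left a
  obtain ⟨c, hc1, hc2⟩ := hS.exists_inner_right a
  have e1 : a * (c * a * b) = a * b := by
    rw [← mul_assoc, ← mul_assoc, hc1]
  have e2 : c * a * b * a = c * a := by
    rw [mul_assoc c, mul_assoc c, hb1]
  refine ⟨c * a * b, ?_, ?_, ?_, ?_⟩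
  · rw [e1, hb1]
  · rw [e2]
    have : c * a * (c * a * b) = c * (a * c * a) * b := by simp only [mul_assoc]
    rw [this, hc1]
  · rw [e1, hb2]
  · rw [e2, hc2]

theorem StarRegular.isMP (hS : StarRegular S) (a : S) : IsMP a (mpInv a) := by
  obtain ⟨x, hx⟩ := hS.exists_mp a
  rw [mpInv_eq hx]
  exact hx

theorem IsMP.star {a x : S} (h : IsMP a x) : IsMP (star a) (star x) := by
  refine ⟨?_, ?_, ?_, ?_⟩
  · rw [← star_mul, ← star_mul, ← mul_assoc, h.axa]
  · rw [← star_mul, ← star_mul, ← mul_assoc, h.xax]
  · rw [← star_mul, h.xa_star, h.xa_star]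
  · rw [← star_mul, h.ax_star, h.ax_star]

theorem StarRegular.mpInv_star (hS : StarRegular S) (a : S) : mpInv (star a) = star (mpInv a) :=
  mpInv_eq (hS.isMP a).star

end mp

section map

variable {S : Type u} [Ring S] [StarRing S] {T : Type*} [Ring T] [StarRing T]

theorem IsMP.map {a x : S} (h : IsMP a x) (f : S →+* T) (hf : ∀ s, f (Star.star s) = Star.star (f s)) :
    IsMP (f a) (f x) := by
  refine ⟨?_, ?_, ?_, ?_⟩
  · rw [← map_mul, ← map_mul, h.axa]
  · rw [← map_mul, ← map_mul, h.xax]
  · rw [← map_mul, ← hf, h.ax_star]
  · rw [← map_mul, ← hf, h.xa_star]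

/-- homomorphisms of `*`-regular rings commute with terms -/
theorem eval_map (hS : StarRegular S) (f : S →+* T)
    (hf : ∀ s, f (Star.star s) = Star.star (f s)) (v : ℕ → S) (t : Term) :
    f (t.eval v) = t.eval (fun n => f (v n)) := by
  induction t with
  | var n => rfl
  | zero => exact map_zero f
  | one => exact map_one f
  | add s t hs ht => simp only [Term.eval, map_add, hs, ht]
  | neg s hs => simp only [Term.eval, map_neg, hs]
  | mul s t hs ht => simp only [Term.eval, map_mul, hs, ht]
  | star s hs => simp only [Term.eval, hf, hs]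
  | mp s hs =>
    simp only [Term.eval]
    rw [← hs]
    exact (mpInv_eq ((hS.isMP _).map f hf)).symm

end map

end Pool.Agent.N23.B20
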