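import Pool.Agent.N23.B20.Hollow

set_option autoImplicit false

/-!
# The universal field of fractions with involution
-/

namespace Pool.Agent.N23.B20

open Pool.Agent.TH34 Matrix MulOpposite

theorem colFull_conjTranspose {A : Type} [Ring A] [StarRing A] {ν : Type} [Fintype ν]
    {M : Matrix ν ν A} (hM : ColFull M) : ColFull Mᴴ := by
  intro κ _ P Q h
  apply hM κ Qᴴ Pᴴ
  rw [← Matrix.conjTranspose_mul, ← h, Matrix.conjTranspose_conjTranspose]

/-- bijectivity of a matrix over a division ring from injectivity on rows -/
theorem exists_left_inv_of_inj {K : Type} [DivisionRing K] {ν : Type} [Fintype ν] [DecidableEq ν]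
    (M : Matrix ν ν K) (h : ∀ x : ν → K, x ᵥ* M = 0 → x = 0) : ∃ N : Matrix ν ν K, N * M = 1 := by
  let f : (ν → K) →ₗ[K] (ν → K) := Matrix.vecMulLinear M
  have hinj : Function.Injective f := by
    rw [← LinearMap.ker_eq_bot, LinearMap.ker_eq_bot']
    exact h
  have hsurj : Function.Surjective f := LinearMap.injective_iff_surjective.mp hinj
  choose N hN using fun i : ν => hsurj (Pi.single i 1)
  refine ⟨N, Matrix.ext fun i j => ?_⟩
  have h1 := congrFun (hN i) j
  change (N i ᵥ* M) j = _ at h1
  rw [Matrix.one_apply]
  rw [Pi.single_apply] at h1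
  rw [Matrix.mul_apply]
  have h2 : (N i ᵥ* M) j = ∑ l, N i l * M l j := rfl
  rw [← h2, h1]
  simp only [eq_comm]

/-- the universal field of fractions of a ring with involution whose relations are all
trivialisable -/
theorem exists_star_field (A : Type) [Ring A] [StarRing A] [Nontrivial A] (hT : TProp A) :
    ∃ (D : Type) (_ : DivisionRing D) (_ : StarRing D) (j : A →+* D),
      (∀ a, j (star a) = star (j a)) ∧
      (∀ (ν : Type) [Fintype ν] [DecidableEq ν] (M : Matrix ν ν A), ColFull M →
        ∃ N : Matrix ν ν D, M.map j * N = 1 ∧ N * M.map j = 1) ∧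
      (∀ K : Subfield D, (∀ a, j a ∈ K) → ∀ x, x ∈ K) := by
  classical
  have hnt : Nontrivial (Loc A) := loc_nontrivial hT
  have hleft : ∀ s : Loc A, s ≠ 0 → ∃ t : Loc A, t * s = 1 := fun s hs =>
    (isRat_all hT s).exists_left_inv hs
  have hunit : ∀ s : Loc A, IsUnit s ∨ s = 0 := by
    intro s
    by_cases hs : s = 0
    · exact Or.inr hs
    · left
      obtain ⟨t, ht⟩ := hleft s hs
      have ht0 : t ≠ 0 := by
        rintro rfl
        rw [zero_mul] at ht
        exact zero_ne_one ht
      obtain ⟨r, hr⟩ := hleft t ht0
      have : r = s := by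
        calc r = r * (t * s) := by rw [ht, mul_one]
          _ = s := by rw [← mul_assoc, hr, one_mul]
      rw [this] at hr
      exact ⟨⟨s, t, hr, ht⟩, rfl⟩
  -- the involution
  let f : A →+* (Loc A)ᵐᵒᵖ :=
    { toFun := fun a => op (inc A (star a))
      map_one' := by rw [star_one, map_one]; rfl
      map_mul' := by
        intro a b
        rw [star_mul, map_mul, op_mul]
      map_zero' := by rw [star_zero, map_zero]; rfl
      map_add' := by
        intro a b
        rw [star_add, map_add, op_add] }
  obtain ⟨g, hg⟩ := exists_lift f (by
    intro F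
    obtain ⟨N0, h1, h2⟩ := exists_inv F.Mᴴ (colFull_conjTranspose F.full)
    refine ⟨fun i j => op (N0 j i), ?_, ?_⟩
    · refine Matrix.ext fun i j => ?_
      have h3 := congrFun (congrFun h2 j) i
      rw [Matrix.mul_apply] at h3 ⊢
      apply unop_injective
      rw [Finset.unop_sum]
      simp only [Matrix.map_apply, f, RingHom.coe_mk, MonoidHom.coe_mk, OneHom.coe_mk,
        unop_mul, unop_op]
      simp only [Matrix.map_apply, Matrix.conjTranspose_apply] at h3
      rw [h3, Matrix.one_apply, Matrix.one_apply]
      by_cases hij : i = j
      · simp [hij]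
      · simp [hij, Ne.symm hij]
    · refine Matrix.ext fun i j => ?_
      have h3 := congrFun (congrFun h1 j) i
      rw [Matrix.mul_apply] at h3 ⊢
      apply unop_injective
      rw [Finset.unop_sum]
      simp only [Matrix.map_apply, f, RingHom.coe_mk, MonoidHom.coe_mk, OneHom.coe_mk,
        unop_mul, unop_op]
      simp only [Matrix.map_apply, Matrix.conjTranspose_apply] at h3
      rw [h3, Matrix.one_apply, Matrix.one_apply]
      by_cases hij : i = j
      · simp [hij]
      · simp [hij, Ne.symm hij])
  have hgi : ∀ a, g (inc A a) = op (inc A (star a)) := fun a => RingHom.congr_fun hg a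
  have hinv : ∀ x, unop (g (unop (g x))) = x := by
    let g2 : Loc A →+* Loc A :=
      { toFun := fun x => unop (g (unop (g x)))
        map_one' := by simp
        map_mul' := by
          intro x y
          simp
        map_zero' := by simp
        map_add' := by
          intro x y
          simp }
    have h1 : g2 = RingHom.id _ := by
      apply lift_unique
      ext a
      change unop (g (unop (g (inc A a)))) = inc A a
      rw [hgi, unop_op, hgi, unop_op, star_star]
    intro x
    exact RingHom.congr_fun h1 x
  let iD : DivisionRing (Loc A) := DivisionRing.ofIsUnitOrEqZero hunit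
  let st : StarRing (Loc A) :=
    { star := fun x => unop (g x)
      star_involutive := hinv
      star_mul := by
        intro x y
        change unop (g (x * y)) = unop (g y) * unop (g x)
        rw [map_mul, unop_mul]
      star_add := by
        intro x y
        change unop (g (x + y)) = unop (g x) + unop (g y)
        rw [map_add, unop_add] }
  refine ⟨Loc A, iD, st, inc A, ?_, ?_, ?_⟩
  · intro a
    change inc A (star a) = unop (g (inc A a))
    rw [hgi, unop_op]
  · intro ν _ _ M hM
    exact exists_inv M hM
  · intro K hK x
    obtain ⟨y, rfl⟩ := lmk_surjective A x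
    have hlinv : ∀ (F : FullM A) (i j : Fin F.n), linv F i j ∈ K := by
      intro F
      let M : Matrix (Fin F.n) (Fin F.n) K := fun i j => ⟨inc A (F.M i j), hK _⟩
      have hMm : M.map K.subtype = F.M.map (inc A) := rfl
      obtain ⟨N, hN⟩ := exists_left_inv_of_inj M (by
        intro x hx
        have h1 : (fun i => (x i : Loc A)) ᵥ* (F.M.map (inc A)) = 0 := by
          funext j
          have h2 := congrArg K.subtype (congrFun hx j)
          have h3 : K.subtype ((x ᵥ* M) j) = ∑ i, (x i : Loc A) * inc A (F.M i j) := by
            simp [Matrix.vecMul, dotProduct, M]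
          rw [h3] at h2
          simpa [Matrix.vecMul, dotProduct] using h2
        have h2 : (fun i => (x i : Loc A)) = 0 := by
          have h3 : (fun i => (x i : Loc A)) = ((fun i => (x i : Loc A)) ᵥ* (F.M.map (inc A))) ᵥ*
              linv F := by
            rw [Matrix.vecMul_vecMul, mul_linv, Matrix.vecMul_one]
          rw [h3, h1, Matrix.zero_vecMul]
        funext i
        apply Subtype.ext
        exact congrFun h2 i)
      have h4 : N.map K.subtype * F.M.map (inc A) = 1 := by
        rw [← hMm, ← Matrix.map_mul, hN]
        exact Matrix.map_one _ (map_zero _) (map_one _)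
      have h5 : linv F = N.map K.subtype := by
        calc linv F = (N.map K.subtype * F.M.map (inc A)) * linv F := by rw [h4, Matrix.one_mul]
          _ = N.map K.subtype := by rw [Matrix.mul_assoc, mul_linv, Matrix.mul_one]
      intro i j
      rw [h5]
      exact (N i j).2
    induction y using FreeAlgebra.induction with
    | grade0 n =>
      have : lmk A (algebraMap ℤ (FreeAlgebra ℤ (Gen A)) n) = inc A (n : A) := by
        simp
      rw [this]
      exact hK _
    | grade1 x =>
      rcases x with a | ⟨F, i, j⟩
      · exact hK a
      · exact hlinv F i j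
    | mul a b ha hb =>
      rw [map_mul]
      exact K.mul_mem ha hb
    | add a b ha hb =>
      rw [map_add]
      exact K.add_mem ha hb

end Pool.Agent.N23.B20
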