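import Pool.Agent.N23.B20.NF

set_option autoImplicit false

/-!
# Non-full linear matrices over the free algebra are hollow
-/

namespace Pool.Agent.N23.B20

open Pool.Agent.TH34 Matrix MulOpposite

section linalg

variable {k : Type} [Field k]

/-- a basis of the left kernel of a matrix -/
theorem left_ker {ν κ : Type} [Fintype ν] [DecidableEq ν] [Fintype κ] (P : Matrix ν κ k) :
    ∃ a : ℕ, Fintype.card ν ≤ a + Fintype.card κ ∧ ∃ (S : Matrix (Fin a) ν k)
      (S' : Matrix ν (Fin a) k), S * S' = 1 ∧ S * P = 0 := by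
  classical
  let f : (ν → k) →ₗ[k] (κ → k) := Matrix.vecMulLinear P
  have hf : ∀ x, f x = x ᵥ* P := fun x => rfl
  let b := Module.finBasis k (LinearMap.ker f)
  refine ⟨Module.finrank k (LinearMap.ker f), ?_, ?_⟩
  · have h1 := f.finrank_range_add_finrank_ker
    have h2 := (LinearMap.range f).finrank_le
    rw [Module.finrank_fintype_fun_eq_card] at h1 h2
    omega
  · let S : Matrix (Fin (Module.finrank k (LinearMap.ker f))) ν k := fun i => (b i : ν → k)
    let g : (Fin (Module.finrank k (LinearMap.ker f)) → k) →ₗ[k] (ν → k) := Matrix.vecMulLinear S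
    have hg : ∀ c, g c = ∑ i, c i • (b i : ν → k) := by
      intro c
      funext j
      change (c ᵥ* S) j = _
      rw [Finset.sum_apply]
      simp [Matrix.vecMul, dotProduct, S]
    have hginj : LinearMap.ker g = ⊥ := by
      rw [LinearMap.ker_eq_bot']
      intro c hc
      rw [hg] at hc
      have h1 : ∑ i, c i • b i = 0 := by
        apply Subtype.ext
        rw [Submodule.coe_sum]
        simpa using hc
      funext i
      exact Fintype.linearIndependent_iff.mp b.linearIndependent c h1 i
    obtain ⟨h, hh⟩ := g.exists_leftInverse_of_injective hginj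
    refine ⟨S, fun j i => h (Pi.single j 1) i, ?_, ?_⟩
    · refine Matrix.ext fun i i' => ?_
      have h2 : h (S i) i' = (1 : Matrix _ _ k) i i' := by
        have h3 : g (Pi.single i 1) = S i := by
          rw [hg]
          rw [Finset.sum_eq_single i]
          · simp [S]
          · intro j _ hj
            rw [Pi.single_eq_of_ne hj, zero_smul]
          · simp
        rw [← h3]
        have h4 := LinearMap.congr_fun hh (Pi.single i 1)
        rw [LinearMap.comp_apply, LinearMap.id_apply] at h4
        rw [h4, Matrix.one_apply, Pi.single_apply]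
        simp only [eq_comm]
      rw [← h2, Matrix.mul_apply]
      have h5 : S i = ∑ j, S i j • (Pi.single j 1 : ν → k) := by
        funext l
        rw [Finset.sum_apply]
        simp [Pi.single_apply]
      conv_rhs => rw [h5]
      rw [map_sum, Finset.sum_apply]
      simp
    · refine Matrix.ext fun i j => ?_
      have h1 : f (b i : ν → k) = 0 := (b i).2
      rw [hf] at h1
      have h2 := congrFun h1 j
      rw [Matrix.mul_apply, Matrix.zero_apply]
      simpa [Matrix.vecMul, dotProduct, S] using h2

end linalg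

section hollow

variable {k Λ : Type} [Field k]

theorem eq_emb_of_Dg {f : FA k Λ} (hf : f ∈ Dg (X0 k Λ) 1) :
    f = emb (X0 k Λ) (cf (X0 k Λ) f []) := by
  ext w
  rw [emb_apply]
  rcases w with _ | ⟨x, w⟩
  · rw [cf_sg_same]
  · rw [cf_sg_ne (by simp)]
    by_contra h
    have := hf _ h
    simp at this

/-- **Hollow lemma**: a linear square matrix over the free algebra that is not full is equivalent,
over the field, to a hollow matrix. -/
theorem hollow {ν : Type} [Fintype ν] [DecidableEq ν] (M : Matrix ν ν (FA k Λ))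
    (hlin : ∀ i j, M i j ∈ Dg (X0 k Λ) 2) (hM : ¬ ColFull M) :
    ∃ a b : ℕ, Fintype.card ν < a + b ∧
      ∃ (S : Matrix (Fin a) ν k) (S' : Matrix ν (Fin a) k) (T : Matrix ν (Fin b) k)
        (T' : Matrix (Fin b) ν k), S * S' = 1 ∧ T' * T = 1 ∧
        S.map (emb (X0 k Λ)) * M * T.map (emb (X0 k Λ)) = 0 := by
  classical
  unfold ColFull RankGE at hM
  push Not at hM
  obtain ⟨κ, _, P, Q, hPQ, hcard⟩ := hM
  obtain ⟨P', Q', hPQ', hK⟩ := normal_form (X := X0 k Λ) _ P Q rfl (by rw [← hPQ]; exact hlin)
  rw [← hPQ] at hPQ'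
  let p : κ → Prop := fun l => ∀ i, P' i l ∈ Dg (X0 k Λ) 1
  have hp' : ∀ l, ¬ p l → ∀ j, Q' l j ∈ Dg (X0 k Λ) 1 := fun l hl => (hK l).resolve_left hl
  let P0 : Matrix ν {l // p l} k := fun i l => cf (X0 k Λ) (P' i l.1) []
  let Q1 : Matrix ν {l // ¬ p l} k := fun j l => cf (X0 k Λ) (Q' l.1 j) []
  obtain ⟨a, ha, S, S', hS, hSP⟩ := left_ker P0
  obtain ⟨b, hb, T, T', hT, hTQ⟩ := left_ker Q1
  refine ⟨a, b, ?_, S, S', Tᵀ, T'ᵀ, hS, ?_, ?_⟩
  · have := Fintype.card_subtype_compl p
    have hle := Fintype.card_subtype_le p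
    omega
  · rw [← Matrix.transpose_mul, hT, Matrix.transpose_one]
  · rw [← hPQ', ← Matrix.mul_assoc, Matrix.mul_assoc]
    refine Matrix.ext fun i j => ?_
    rw [Matrix.mul_apply, Matrix.zero_apply]
    apply Finset.sum_eq_zero
    intro l _
    by_cases hl : p l
    · have h1 : (S.map (emb (X0 k Λ)) * P') i l = emb (X0 k Λ) ((S * P0) i ⟨l, hl⟩) := by
        rw [Matrix.mul_apply, Matrix.mul_apply, map_sum]
        apply Finset.sum_congr rfl
        intro x _
        rw [map_mul, Matrix.map_apply]
        congr 1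
        exact eq_emb_of_Dg (hl x)
      rw [h1, hSP, Matrix.zero_apply, map_zero, zero_mul]
    · have h1 : (Q' * Tᵀ.map (emb (X0 k Λ))) l j = emb (X0 k Λ) ((T * Q1) j ⟨l, hl⟩) := by
        rw [Matrix.mul_apply, Matrix.mul_apply, map_sum]
        apply Finset.sum_congr rfl
        intro x _
        rw [map_mul, Matrix.map_apply, Matrix.transpose_apply, emb_comm]
        congr 1
        exact eq_emb_of_Dg (hp' l hl x)
      rw [h1, hTQ, Matrix.zero_apply, map_zero, mul_zero]

end hollow

end Pool.Agent.N23.B20
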