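import Pool.Agent.N23.B20.Rep

set_option autoImplicit false

/-!
# Linear algebra over fields and division rings
-/

namespace Pool.Agent.N23.B20

open Pool.Agent.TH34 Matrix MulOpposite

section field

variable {k : Type} [Field k]

/-- matrix of a basis of a subspace -/
theorem basis_matrix {ν : Type} [Fintype ν] [DecidableEq ν] (W : Submodule k (ν → k)) :
    ∃ (S : Matrix (Fin (Module.finrank k W)) ν k) (S' : Matrix ν (Fin (Module.finrank k W)) k),
      S * S' = 1 ∧ ∀ i, S i ∈ W := by
  classical
  let b := Module.finBasis k W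
  let S : Matrix (Fin (Module.finrank k W)) ν k := fun i => (b i : ν → k)
  let g : (Fin (Module.finrank k W) → k) →ₗ[k] (ν → k) := Matrix.vecMulLinear S
  have hg : ∀ c, g c = ∑ i, c i • (b i : ν → k) := by
    intro c
    funext j
    change (c ᵥ* S) j = _
    rw [Finset.sum_apply]
    simp [Matrix.vecMul, dotProduct, S]
  have hginj : LinearMap.ker g = ⊥ := by
    rw [LinearMap.ker_eq_bot']
    intro c hc
    rw [hg] at hc
    have h1 : ∑ i, c i • b i = 0 := by
      apply Subtype.ext
      rw [Submodule.coe_sum]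
      simpa using hc
    funext i
    exact Fintype.linearIndependent_iff.mp b.linearIndependent c h1 i
  obtain ⟨h, hh⟩ := g.exists_leftInverse_of_injective hginj
  refine ⟨S, fun j i => h (Pi.single j 1) i, ?_, ?_⟩
  · refine Matrix.ext fun i i' => ?_
    have h2 : h (S i) i' = (1 : Matrix _ _ k) i i' := by
      have h3 : g (Pi.single i 1) = S i := by
        rw [hg]
        rw [Finset.sum_eq_single i]
        · simp [S]
        · intro j _ hj
          rw [Pi.single_eq_of_ne hj, zero_smul]
        · simp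
      rw [← h3]
      have h4 := LinearMap.congr_fun hh (Pi.single i 1)
      rw [LinearMap.comp_apply, LinearMap.id_apply] at h4
      rw [h4, Matrix.one_apply, Pi.single_apply]
      simp only [eq_comm]
    rw [← h2, Matrix.mul_apply]
    have h5 : S i = ∑ j, S i j • (Pi.single j 1 : ν → k) := by
      funext l
      rw [Finset.sum_apply]
      simp [Pi.single_apply]
    conv_rhs => rw [h5]
    rw [map_sum, Finset.sum_apply]
    simp
  · intro i
    exact (b i).2

/-- kernel and row space of a matrix -/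
theorem rank_split {α β : Type} [Fintype α] [DecidableEq α] [Fintype β] [DecidableEq β]
    (L : Matrix α β k) : ∃ (a b : ℕ) (S : Matrix (Fin a) α k) (S' : Matrix α (Fin a) k)
      (T : Matrix β (Fin b) k) (T' : Matrix (Fin b) β k) (R : Matrix α (Fin b) k),
      Fintype.card α ≤ a + b ∧ S * S' = 1 ∧ S * L = 0 ∧ T' * T = 1 ∧ T = Lᵀ * R := by
  classical
  let f : (α → k) →ₗ[k] (β → k) := Matrix.vecMulLinear L
  have hf : ∀ x, f x = x ᵥ* L := fun x => rfl
  obtain ⟨S, S', hS, hSW⟩ := basis_matrix (LinearMap.ker f)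
  obtain ⟨T, T', hT, hTW⟩ := basis_matrix (LinearMap.range f)
  choose R hR using hTW
  refine ⟨_, _, S, S', Tᵀ, T'ᵀ, Matrix.transpose R, ?_, hS, ?_, ?_, ?_⟩
  · have h1 := f.finrank_range_add_finrank_ker
    rw [Module.finrank_fintype_fun_eq_card] at h1
    omega
  · refine Matrix.ext fun i j => ?_
    exact congrFun (hSW i) j
  · rw [← Matrix.transpose_mul, hT, Matrix.transpose_one]
  · rw [← Matrix.transpose_mul]
    congr 1
    refine Matrix.ext fun i j => ?_
    exact (congrFun (hR i) j).symm

/-- a square matrix over a field with injective action on columns is invertible -/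
theorem inv_of_col_inj {n : Type} [Fintype n] [DecidableEq n] (M : Matrix n n k)
    (h : ∀ c : n → k, M *ᵥ c = 0 → c = 0) : ∃ R : Matrix n n k, R * M = 1 ∧ M * R = 1 := by
  have hu : IsUnit M := by
    rw [← Matrix.mulVec_injective_iff_isUnit]
    intro x y hxy
    have : M *ᵥ (x - y) = 0 := by
      rw [Matrix.mulVec_sub, sub_eq_zero]
      exact hxy
    exact sub_eq_zero.mp (h _ this)
  obtain ⟨u, rfl⟩ := hu
  exact ⟨(u⁻¹ : (Matrix n n k)ˣ), Units.inv_mul u, Units.mul_inv u⟩

theorem card_le_of_col_inj {a : ℕ} {n : Type} [Fintype n] [DecidableEq n]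
    (M : Matrix (Fin a) n k) (h : ∀ c : n → k, M *ᵥ c = 0 → c = 0) : Fintype.card n ≤ a := by
  have hinj : Function.Injective (Matrix.mulVecLin M) := by
    rw [← LinearMap.ker_eq_bot, LinearMap.ker_eq_bot']
    exact h
  have := LinearMap.finrank_le_finrank_of_injective hinj
  simpa using this

end field

section division

variable {K : Type} [DivisionRing K]

theorem ker_le_one {ν μ : Type} [Fintype ν] [Fintype μ] (N : Matrix ν μ K) (κ : ν → K)
    (hκ : ∀ x : ν → K, x ᵥ* N = 0 → ∃ d : K, x = d • κ) :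
    Module.finrank K (LinearMap.ker (Matrix.vecMulLinear N)) ≤ 1 := by
  have h1 : LinearMap.ker (Matrix.vecMulLinear N) ≤ Submodule.span K {κ} := by
    intro x hx
    obtain ⟨d, hd⟩ := hκ x hx
    rw [Submodule.mem_span_singleton]
    exact ⟨d, hd.symm⟩
  refine (Submodule.finrank_mono h1).trans ?_
  have := finrank_span_le_card (R := K) ({κ} : Set (ν → K))
  simpa using this

/-- existence of a left inverse -/
theorem exists_left_inv_rect {m : ℕ} (P : Matrix (Fin (m + 1)) (Fin m) K) (ξ : Fin (m + 1) → K)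
    (hκ : ∀ x : Fin (m + 1) → K, x ᵥ* P = 0 → ∃ d : K, x = d • ξ) :
    ∃ Q : Matrix (Fin m) (Fin (m + 1)) K, Q * P = 1 := by
  have h1 := ker_le_one P ξ hκ
  have h2 := (Matrix.vecMulLinear P).finrank_range_add_finrank_ker
  rw [Module.finrank_fintype_fun_eq_card, Fintype.card_fin] at h2
  have h3 : LinearMap.range (Matrix.vecMulLinear P) = ⊤ := by
    apply Submodule.eq_top_of_finrank_eq
    have h4 := (LinearMap.range (Matrix.vecMulLinear P)).finrank_le
    rw [Module.finrank_fintype_fun_eq_card, Fintype.card_fin] at h4 ⊢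
    omega
  have hsurj : Function.Surjective (Matrix.vecMulLinear P) := LinearMap.range_eq_top.mp h3
  choose Q hQ using fun i : Fin m => hsurj (Pi.single i 1)
  refine ⟨Q, Matrix.ext fun i j => ?_⟩
  have h5 := congrFun (hQ i) j
  change (Q i ᵥ* P) j = _ at h5
  rw [Matrix.one_apply, Matrix.mul_apply]
  rw [Pi.single_apply] at h5
  have h6 : (Q i ᵥ* P) j = ∑ l, Q i l * P l j := rfl
  rw [← h6, h5]
  simp only [eq_comm]

/-- hollow matrices and one-dimensional kernels -/
theorem ker_hollow {ν μ : Type} [Fintype ν] [Fintype μ] [DecidableEq ν] [DecidableEq μ]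
    (N : Matrix ν μ K) (κ : ν → K) (hκ : ∀ x : ν → K, x ᵥ* N = 0 → ∃ d : K, x = d • κ)
    {a b : ℕ} (S : Matrix (Fin a) ν K) (S' : Matrix ν (Fin a) K) (T : Matrix μ (Fin b) K)
    (T' : Matrix (Fin b) μ K) (hS : S * S' = 1) (hT : T' * T = 1) (h : S * N * T = 0) :
    a + b ≤ Fintype.card μ + 1 ∧
      (Fintype.card μ + 1 ≤ a + b → ∃ x : Fin a → K, κ = x ᵥ* S) := by
  classical
  let f : (Fin a → K) →ₗ[K] (μ → K) := Matrix.vecMulLinear (S * N)
  let g : (μ → K) →ₗ[K] (Fin b → K) := Matrix.vecMulLinear T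
  let s : (Fin a → K) →ₗ[K] (ν → K) := Matrix.vecMulLinear S
  have hsinj : Function.Injective s := by
    rw [← LinearMap.ker_eq_bot, LinearMap.ker_eq_bot']
    intro x hx
    have h1 : x ᵥ* S = 0 := hx
    calc x = (x ᵥ* S) ᵥ* S' := by rw [Matrix.vecMul_vecMul, hS, Matrix.vecMul_one]
      _ = 0 := by rw [h1, Matrix.zero_vecMul]
  have hgsurj : Function.Surjective g := by
    intro y
    refine ⟨y ᵥ* T', ?_⟩
    change (y ᵥ* T') ᵥ* T = y
    rw [Matrix.vecMul_vecMul, hT, Matrix.vecMul_one]
  have hle : LinearMap.range f ≤ LinearMap.ker g := by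
    rintro _ ⟨x, rfl⟩
    change (x ᵥ* (S * N)) ᵥ* T = 0
    rw [Matrix.vecMul_vecMul, h, Matrix.vecMul_zero]
  have h1 := f.finrank_range_add_finrank_ker
  have h2 := g.finrank_range_add_finrank_ker
  rw [LinearMap.range_eq_top.mpr hgsurj, finrank_top] at h2
  rw [Module.finrank_fintype_fun_eq_card] at h1 h2
  rw [Module.finrank_fintype_fun_eq_card, Fintype.card_fin] at h2
  rw [Fintype.card_fin] at h1
  have h3 := Submodule.finrank_mono hle
  have hker : ∀ x ∈ LinearMap.ker f, s x ∈ Submodule.span K {κ} := by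
    intro x hx
    have h4 : (x ᵥ* S) ᵥ* N = 0 := by
      rw [Matrix.vecMul_vecMul]
      exact hx
    obtain ⟨d, hd⟩ := hκ _ h4
    rw [Submodule.mem_span_singleton]
    exact ⟨d, hd.symm⟩
  have h5 : Module.finrank K (LinearMap.ker f) ≤ 1 := by
    have h6 : Function.Injective (s.restrict hker) := by
      intro x y hxy
      apply Subtype.ext
      apply hsinj
      exact congrArg Subtype.val hxy
    refine (LinearMap.finrank_le_finrank_of_injective h6).trans ?_
    have := finrank_span_le_card (R := K) ({κ} : Set (ν → K))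
    simpa using this
  refine ⟨by omega, ?_⟩
  intro hab
  have h6 : 0 < Module.finrank K (LinearMap.ker f) := by omega
  have h7 : LinearMap.ker f ≠ ⊥ := by
    intro h8
    rw [h8, finrank_bot] at h6
    exact lt_irrefl _ h6
  obtain ⟨x, hx, hx0⟩ := Submodule.exists_mem_ne_zero_of_ne_bot h7
  obtain ⟨d, hd⟩ := Submodule.mem_span_singleton.mp (hker x hx)
  have hd0 : d ≠ 0 := by
    rintro rfl
    rw [zero_smul] at hd
    apply hx0
    apply hsinj
    rw [map_zero, hd]
  refine ⟨d⁻¹ • x, ?_⟩
  rw [Matrix.smul_vecMul]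
  have h8 : x ᵥ* S = d • κ := hd.symm
  rw [h8, smul_smul, inv_mul_cancel₀ hd0, one_smul]

/-- row relations give column relations -/
theorem exists_col_rel {ν : Type} [Fintype ν] [DecidableEq ν] (N : Matrix ν ν K) (x : ν → K)
    (hx : x ≠ 0) (h : x ᵥ* N = 0) : ∃ y : ν → K, y ≠ 0 ∧ ∀ i, ∑ j, N i j * y j = 0 := by
  classical
  let f : (ν → K) →ₗ[K] (ν → K) := Matrix.vecMulLinear N
  have hninj : ¬ Function.Injective f := by
    intro hinj
    apply hx
    apply hinj
    rw [map_zero]
    exact h
  have hnsurj : ¬ Function.Surjective f := fun hs => hninj (LinearMap.injective_iff_surjective.mpr hs)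
  have hlt : LinearMap.range f < ⊤ := by
    rw [lt_top_iff_ne_top]
    intro h1
    exact hnsurj (LinearMap.range_eq_top.mp h1)
  obtain ⟨g, hg0, hg⟩ := Submodule.exists_le_ker_of_lt_top _ hlt
  have hgx : ∀ x : ν → K, g x = ∑ j, x j * g (Pi.single j 1) := by
    intro x
    have : x = ∑ j, x j • (Pi.single j 1 : ν → K) := by
      funext l
      rw [Finset.sum_apply]
      simp [Pi.single_apply]
    conv_lhs => rw [this]
    rw [map_sum]
    apply Finset.sum_congr rfl
    intro j _
    rw [map_smul, smul_eq_mul]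
  refine ⟨fun j => g (Pi.single j 1), ?_, ?_⟩
  · intro h1
    apply hg0
    ext x
    simp only [LinearMap.comp_apply, LinearMap.zero_apply]
    exact congrFun h1 x
  · intro i
    rw [← hgx (N i)]
    have h1 : N i ∈ LinearMap.range f := by
      refine ⟨Pi.single i 1, ?_⟩
      change Pi.single i 1 ᵥ* N = N i
      rw [Matrix.single_one_vecMul]
      rfl
    exact hg h1

end division

end Pool.Agent.N23.B20
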