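import Pool.Agent.N23.B20.Alg

set_option autoImplicit false

/-!
# Factorisations of linear matrices over the free algebra
-/

namespace Pool.Agent.N23.B20

open Pool.Agent.TH34 Matrix MulOpposite

section nf

variable {U E : Type} [DivisionRing U] [DivisionRing E] {X : BData U E}

/-- degree (plus one) of a column -/
noncomputable def wc {ν κ : Type} [Fintype ν] (P : Matrix ν κ (FR X)) (k : κ) : ℕ :=
  Finset.univ.sup (fun i => wd (P i k))

theorem le_wc {ν κ : Type} [Fintype ν] (P : Matrix ν κ (FR X)) (i : ν) (k : κ) :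
    wd (P i k) ≤ wc P k :=
  Finset.le_sup (f := fun i => wd (P i k)) (Finset.mem_univ i)

theorem wc_le {ν κ : Type} [Fintype ν] (P : Matrix ν κ (FR X)) (k : κ) (p : ℕ)
    (h : ∀ i, wd (P i k) ≤ p) : wc P k ≤ p := Finset.sup_le (fun i _ => h i)

/-- vector version of the weak algorithm -/
theorem weak_step_vec {ν κ γ : Type} [Fintype ν] [Fintype κ] [DecidableEq κ] [Fintype γ]
    (P : Matrix ν κ (FR X)) (Q : Matrix κ γ (FR X)) (hrel : ∀ i j, (P * Q) i j ∈ Dg X 2)
    (k0 : κ) (hP : ¬ ∀ i, P i k0 ∈ Dg X 1) (hQ : ¬ ∀ j, Q k0 j ∈ Dg X 1) :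
    ∃ (i0 : κ) (c : κ → FR X), c i0 = 0 ∧
      ∃ p, wc P i0 = p + 1 ∧ ∀ i, wd (P i i0 + ∑ k, P i k * c k) ≤ p := by
  classical
  let wp : κ → ℕ := fun k => wc P k
  let wq : κ → ℕ := fun k => Finset.univ.sup (fun j => wd (Q k j))
  have hwp : ∀ i k, wd (P i k) ≤ wp k := fun i k => le_wc P i k
  have hwq : ∀ k j, wd (Q k j) ≤ wq k := fun k j =>
    Finset.le_sup (f := fun j => wd (Q k j)) (Finset.mem_univ j)
  have hk1 : 2 ≤ wp k0 := by
    push Not at hP
    obtain ⟨i, hi⟩ := hP
    rw [mem_Dg_iff] at hi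
    have := hwp i k0
    omega
  have hk2 : 2 ≤ wq k0 := by
    push Not at hQ
    obtain ⟨j, hj⟩ := hQ
    rw [mem_Dg_iff] at hj
    have := hwq k0 j
    omega
  let I : Finset κ := Finset.univ.filter (fun k => wp k ≠ 0 ∧ wq k ≠ 0)
  have hk0I : k0 ∈ I := by
    simp only [I, Finset.mem_filter, Finset.mem_univ, true_and]
    omega
  obtain ⟨i1, hi1, hmax1⟩ := Finset.exists_max_image I (fun k => wp k + wq k) ⟨k0, hk0I⟩
  let I' : Finset κ := I.filter (fun k => wp k + wq k = wp i1 + wq i1)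
  have hI' : I'.Nonempty := ⟨i1, by simp [I', hi1]⟩
  obtain ⟨i0, hi0, hmax0⟩ := Finset.exists_max_image I' (fun k => wp k) hI'
  have hi0I : i0 ∈ I := (Finset.mem_filter.mp hi0).1
  have hi0e : wp i0 + wq i0 = wp i1 + wq i1 := (Finset.mem_filter.mp hi0).2
  have hp0 : wp i0 ≠ 0 ∧ wq i0 ≠ 0 := by simpa [I] using hi0I
  have hbig : 4 ≤ wp i0 + wq i0 := by
    have : wp k0 + wq k0 ≤ wp i1 + wq i1 := hmax1 k0 hk0I
    omega
  obtain ⟨p, hp⟩ : ∃ p, wp i0 = p + 1 := ⟨wp i0 - 1, by omega⟩
  obtain ⟨j, hjwq⟩ : ∃ j, wq i0 = wd (Q i0 j) := by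
    have hne : (Finset.univ : Finset γ).Nonempty := by
      rw [Finset.nonempty_iff_ne_empty]
      intro h
      apply hp0.2
      simp only [wq]
      rw [h, Finset.sup_empty]
      rfl
    obtain ⟨j, _, hj⟩ := Finset.exists_mem_eq_sup Finset.univ hne (fun j => wd (Q i0 j))
    exact ⟨j, hj⟩
  obtain ⟨q, hq⟩ : ∃ q, wd (Q i0 j) = q + 1 := ⟨wd (Q i0 j) - 1, by omega⟩
  obtain ⟨v, hvq, hv0⟩ := exists_top hq
  set e : E := cf X (Q i0 j) v with he
  let c : κ → FR X := fun k => if k ≠ i0 ∧ wp k ≤ p + 1 then kap v (Q k j) * emb X e⁻¹ else 0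
  let k' : κ → FR X := fun k => if wp k ≤ p + 1 then kap v (Q k j) else 0
  have hk0' : k' i0 = emb X e := by
    simp only [k']
    rw [if_pos (by omega), kap_top (q := q) (by rw [mem_Dg_iff]; omega) v hvq]
  have hmem : ∀ i k, kap v (P i k * Q k j) - P i k * k' k ∈ Dg X p := by
    intro i k
    by_cases h : wp k ≤ p + 1
    · simp only [k', if_pos h]
      exact kap_mul v (mem_Dg_iff.mpr ((hwp i k).trans h)) _
    · simp only [k', if_neg h, mul_zero, sub_zero]
      by_cases hz : Q k j = 0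
      · rw [hz, mul_zero, map_zero]
        exact zero_mem _
      have hwqk : 0 < wd (Q k j) := wd_pos hz
      have h4 := hwq k j
      have hiI : k ∈ I := by
        simp only [I, Finset.mem_filter, Finset.mem_univ, true_and]
        omega
      have h1 : wp k + wq k ≤ wp i1 + wq i1 := hmax1 k hiI
      have h2 : wp k + wq k ≠ wp i1 + wq i1 := by
        intro h3
        have hi' : k ∈ I' := Finset.mem_filter.mpr ⟨hiI, h3⟩
        have : wp k ≤ wp i0 := hmax0 k hi'
        omega
      have h3 : wp k + wq k ≤ p + q + 1 := by omega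
      obtain ⟨q', hq'⟩ : ∃ q', wd (Q k j) = q' + 1 := ⟨wd (Q k j) - 1, by omega⟩
      have h5 : P i k * Q k j ∈ Dg X (wp k + q') :=
        mul_Dg (mem_Dg_iff.mpr (hwp i k)) (mem_Dg_iff.mpr (by omega))
      apply kap_Dg
      exact Dg_mono (by omega) h5
  have hsum : ∀ i, ∑ k, P i k * k' k ∈ Dg X p := by
    intro i
    have h1 : ∑ k, (kap v (P i k * Q k j) - P i k * k' k) ∈ Dg X p :=
      sum_mem (fun k _ => hmem i k)
    rw [Finset.sum_sub_distrib, ← map_sum, ← Matrix.mul_apply] at h1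
    have h2 : kap v ((P * Q) i j) ∈ Dg X p := by
      apply kap_Dg
      exact Dg_mono (by omega) (hrel i j)
    have h3 := sub_mem h2 h1
    rwa [sub_sub_cancel] at h3
  have hfin : ∀ i, P i i0 + ∑ k, P i k * c k = (∑ k, P i k * k' k) * emb X e⁻¹ := by
    intro i
    rw [Finset.sum_mul, ← Finset.add_sum_erase Finset.univ (fun k => P i k * k' k * emb X e⁻¹)
      (Finset.mem_univ i0), ← Finset.add_sum_erase Finset.univ (fun k => P i k * c k)
      (Finset.mem_univ i0)]
    have h1 : P i i0 * k' i0 * emb X e⁻¹ = P i i0 := by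
      rw [hk0', mul_assoc, ← map_mul, mul_inv_cancel₀ hv0, map_one, mul_one]
    have h2 : c i0 = 0 := by simp [c]
    simp only [h1, h2, mul_zero, zero_add]
    congr 1
    apply Finset.sum_congr rfl
    intro k hk
    have hne : k ≠ i0 := Finset.ne_of_mem_erase hk
    simp only [c, k']
    by_cases h : wp k ≤ p + 1
    · rw [if_pos ⟨hne, h⟩, if_pos h, mul_assoc]
    · rw [if_neg (fun h' => h h'.2), if_neg h, mul_zero, zero_mul]
  refine ⟨i0, c, by simp [c], p, hp, ?_⟩
  intro i
  rw [hfin]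
  have h1 : (∑ k, P i k * k' k) * emb X e⁻¹ ∈ Dg X (p + 0) := mul_Dg (hsum i) (emb_Dg _)
  rw [mem_Dg_iff] at h1
  omega

/-- factorisations of linear matrices can be brought to a form in which each column of the left
factor or the corresponding row of the right factor is constant -/
theorem normal_form {ν κ γ : Type} [Fintype ν] [Fintype κ] [DecidableEq κ] [Fintype γ] (n : ℕ) :
    ∀ (P : Matrix ν κ (FR X)) (Q : Matrix κ γ (FR X)), ∑ k, wc P k = n →
      (∀ i j, (P * Q) i j ∈ Dg X 2) →
      ∃ (P' : Matrix ν κ (FR X)) (Q' : Matrix κ γ (FR X)), P' * Q' = P * Q ∧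
        ∀ k, (∀ i, P' i k ∈ Dg X 1) ∨ (∀ j, Q' k j ∈ Dg X 1) := by
  classical
  induction n using Nat.strong_induction_on with
  | _ n ih =>
    intro P Q hn hrel
    by_cases hgood : ∀ k, (∀ i, P i k ∈ Dg X 1) ∨ (∀ j, Q k j ∈ Dg X 1)
    · exact ⟨P, Q, rfl, hgood⟩
    · rw [not_forall] at hgood
      obtain ⟨k0, hk0⟩ := hgood
      rw [not_or] at hk0
      obtain ⟨i0, c, hc0, p, hp, hlt⟩ := weak_step_vec P Q hrel k0 hk0.1 hk0.2
      let K : Matrix κ κ (FR X) := Matrix.vecMulVec c (Pi.single i0 1)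
      have hK : K * K = 0 := by
        refine Matrix.ext fun i j => ?_
        rw [Matrix.mul_apply, Matrix.zero_apply]
        apply Finset.sum_eq_zero
        intro k _
        simp only [K, Matrix.vecMulVec_apply]
        by_cases hk : k = i0
        · subst hk
          rw [hc0]
          simp
        · rw [Pi.single_eq_of_ne hk]
          simp
      have hT1 : (1 + K) * (1 - K) = 1 := by
        rw [add_mul, mul_sub, mul_sub, hK]
        simp
      have hPQ : (P * (1 + K)) * ((1 - K) * Q) = P * Q := by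
        rw [Matrix.mul_assoc, ← Matrix.mul_assoc (1 + K), hT1, Matrix.one_mul]
      have ha' : ∀ i k, (P * (1 + K) : Matrix ν κ (FR X)) i k = P i k + (∑ l, P i l * c l) *
          (Pi.single i0 1 : κ → FR X) k := by
        intro i k
        rw [Matrix.mul_add, Matrix.mul_one, Matrix.add_apply]
        congr 1
        rw [Matrix.mul_apply]
        simp only [K, Matrix.vecMulVec_apply, Finset.sum_mul, mul_assoc]
      have h0 : wc (P * (1 + K)) i0 ≤ p := by
        apply wc_le
        intro i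
        rw [ha', Pi.single_eq_same, mul_one]
        exact hlt i
      have h1 : ∀ k, k ≠ i0 → wc (P * (1 + K)) k = wc P k := by
        intro k hk
        unfold wc
        congr 1
        funext i
        rw [ha', Pi.single_eq_of_ne hk, mul_zero, add_zero]
      have hsum : ∑ k, wc (P * (1 + K)) k < n := by
        rw [← hn]
        apply Finset.sum_lt_sum
        · intro k _
          by_cases hk : k = i0
          · subst hk
            omega
          · exact (h1 k hk).le
        · exact ⟨i0, Finset.mem_univ _, by omega⟩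
      obtain ⟨P', Q', h2, h3⟩ := ih _ hsum (P * (1 + K)) ((1 - K) * Q) rfl (by rw [hPQ]; exact hrel)
      exact ⟨P', Q', by rw [h2, hPQ], h3⟩

end nf

end Pool.Agent.N23.B20
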