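import Pool.Agent.N23.B20.Approx

set_option autoImplicit false

/-!
# Reduction to algebras over prime fields
-/

namespace Pool.Agent.N23.B20

open MulOpposite

universe u

section quot

variable {R : Type} [Ring R] [StarRing R]

theorem quotient_star (hR : StarRegular R) (I : Ideal R) [I.IsTwoSided]
    (hI : ∀ a ∈ I, star a ∈ I) :
    ∃ _ : StarRing (R ⧸ I), (∀ a, star (Ideal.Quotient.mk I a) = Ideal.Quotient.mk I (star a)) ∧
      StarRegular (R ⧸ I) := by
  let f : R →+* (R ⧸ I)ᵐᵒᵖ :=
    { toFun := fun a => op (Ideal.Quotient.mk I (star a))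
      map_one' := by rw [star_one, map_one]; rfl
      map_mul' := by
        intro a b
        rw [star_mul, map_mul, op_mul]
      map_zero' := by rw [star_zero, map_zero]; rfl
      map_add' := by
        intro a b
        rw [star_add, map_add, op_add] }
  have hf : ∀ a ∈ I, f a = 0 := by
    intro a ha
    change op (Ideal.Quotient.mk I (star a)) = 0
    rw [Ideal.Quotient.eq_zero_iff_mem.mpr (hI a ha)]
    rfl
  let g : R ⧸ I →+* (R ⧸ I)ᵐᵒᵖ := Ideal.Quotient.lift I f hf
  have hg : ∀ a, unop (g (Ideal.Quotient.mk I a)) = Ideal.Quotient.mk I (star a) := fun a => rfl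
  let st : StarRing (R ⧸ I) :=
    { star := fun x => unop (g x)
      star_involutive := by
        intro x
        obtain ⟨a, rfl⟩ := Ideal.Quotient.mk_surjective x
        change unop (g (unop (g (Ideal.Quotient.mk I a)))) = _
        rw [hg, hg, star_star]
      star_mul := by
        intro x y
        change unop (g (x * y)) = unop (g y) * unop (g x)
        rw [map_mul, unop_mul]
      star_add := by
        intro x y
        change unop (g (x + y)) = unop (g x) + unop (g y)
        rw [map_add, unop_add] }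
  refine ⟨st, fun a => rfl, ?_, ?_⟩
  · intro x
    obtain ⟨a, rfl⟩ := Ideal.Quotient.mk_surjective x
    obtain ⟨y, hy⟩ := hR.regular a
    refine ⟨Ideal.Quotient.mk I y, ?_⟩
    rw [← map_mul, ← map_mul, hy]
  · intro x hx
    obtain ⟨a, rfl⟩ := Ideal.Quotient.mk_surjective x
    have h1 : Ideal.Quotient.mk I (star a * a) = 0 := by
      rw [map_mul]
      exact hx
    rw [Ideal.Quotient.eq_zero_iff_mem] at h1 ⊢
    obtain ⟨y, hy⟩ := hR.exists_left a
    rw [← hy, mul_assoc]
    exact I.mul_mem_left _ h1

/-- a nonzero element survives in a quotient that is an algebra over a prime field -/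
theorem exists_alg_quot (hR : StarRegular R) (x : R) (hx : x ≠ 0) :
    ∃ (k : Type) (_ : Field k) (S : Type) (_ : Ring S) (_ : StarRing S) (_ : Algebra k S)
      (π : R →+* S), StarRegular S ∧ (∀ a, π (star a) = star (π a)) ∧
        (∀ (c : k) (y : S), star (c • y) = c • star y) ∧ π x ≠ 0 := by
  by_cases hcase : ∃ p : ℕ, p.Prime ∧ ∀ z : R, x ≠ (p : R) * z
  · obtain ⟨p, hp, hpx⟩ := hcase
    let I : Ideal R :=
      { carrier := {y | ∃ z, y = (p : R) * z}
        add_mem' := by
          rintro a b ⟨z, rfl⟩ ⟨w, rfl⟩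
          exact ⟨z + w, by rw [mul_add]⟩
        zero_mem' := ⟨0, by rw [mul_zero]⟩
        smul_mem' := by
          rintro c _ ⟨z, rfl⟩
          refine ⟨c * z, ?_⟩
          rw [smul_eq_mul, ← mul_assoc, ← mul_assoc, (Nat.cast_commute p c).eq] }
    have hmem : ∀ y, y ∈ I ↔ ∃ z, y = (p : R) * z := fun y => Iff.rfl
    have hI2 : I.IsTwoSided := ⟨by
      intro a b ha
      obtain ⟨z, rfl⟩ := (hmem a).mp ha
      exact (hmem _).mpr ⟨z * b, by rw [mul_assoc]⟩⟩
    obtain ⟨st, hst, hreg⟩ := quotient_star hR I (by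
      intro a ha
      obtain ⟨z, rfl⟩ := (hmem a).mp ha
      refine (hmem _).mpr ⟨star z, ?_⟩
      rw [star_mul, star_natCast, (Nat.cast_commute p (star z)).eq])
    have hx0 : Ideal.Quotient.mk I x ≠ 0 := by
      intro h
      rw [Ideal.Quotient.eq_zero_iff_mem] at h
      obtain ⟨z, hz⟩ := (hmem x).mp h
      exact hpx z hz
    have hnt : Nontrivial (R ⧸ I) := ⟨⟨_, _, hx0⟩⟩
    have hp0 : (p : R ⧸ I) = 0 := by
      have h1 : Ideal.Quotient.mk I (p : R) = 0 :=
        Ideal.Quotient.eq_zero_iff_mem.mpr ((hmem _).mpr ⟨1, by rw [mul_one]⟩)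
      rwa [map_natCast] at h1
    have hchar : CharP (R ⧸ I) p :=
      (CharP.ringChar_of_prime_eq_zero hp hp0) ▸ ringChar.charP (R ⧸ I)
    have hfact : Fact p.Prime := ⟨hp⟩
    refine ⟨ZMod p, inferInstance, R ⧸ I, inferInstance, st, ZMod.algebra _ p,
      Ideal.Quotient.mk I, hreg, fun a => (hst a).symm, ?_, hx0⟩
    intro c y
    obtain ⟨n, rfl⟩ := ZMod.natCast_zmod_surjective c
    let alg : Algebra (ZMod p) (R ⧸ I) := ZMod.algebra _ p
    rw [Nat.cast_smul_eq_nsmul, Nat.cast_smul_eq_nsmul, star_nsmul]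
  · push Not at hcase
    let I : Ideal R :=
      { carrier := {y | ∃ n : ℕ, n ≠ 0 ∧ (n : R) * y = 0}
        add_mem' := by
          rintro a b ⟨n, hn, hna⟩ ⟨m, hm, hmb⟩
          refine ⟨n * m, mul_ne_zero hn hm, ?_⟩
          rw [mul_add, Nat.cast_mul, mul_assoc (n : R) (m : R) b, hmb, mul_zero, add_zero,
            (Nat.cast_commute n (m : R)).eq, mul_assoc, hna, mul_zero]
        zero_mem' := ⟨1, one_ne_zero, by rw [mul_zero]⟩
        smul_mem' := by
          rintro c y ⟨n, hn, hny⟩
          refine ⟨n, hn, ?_⟩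
          rw [smul_eq_mul, ← mul_assoc, (Nat.cast_commute n c).eq, mul_assoc, hny, mul_zero] }
    have hmem : ∀ y, y ∈ I ↔ ∃ n : ℕ, n ≠ 0 ∧ (n : R) * y = 0 := fun y => Iff.rfl
    have hI2 : I.IsTwoSided := ⟨by
      intro a b ha
      obtain ⟨n, hn, hna⟩ := (hmem a).mp ha
      exact (hmem _).mpr ⟨n, hn, by rw [← mul_assoc, hna, zero_mul]⟩⟩
    obtain ⟨st, hst, hreg⟩ := quotient_star hR I (by
      intro a ha
      obtain ⟨n, hn, hna⟩ := (hmem a).mp ha
      refine (hmem _).mpr ⟨n, hn, ?_⟩
      have h1 := congrArg star hna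
      rw [star_mul, star_natCast, star_zero] at h1
      rw [(Nat.cast_commute n (star a)).eq]
      exact h1)
    have hx0 : Ideal.Quotient.mk I x ≠ 0 := by
      intro h
      rw [Ideal.Quotient.eq_zero_iff_mem] at h
      obtain ⟨n, hn, hnx⟩ := (hmem x).mp h
      have key : ∀ n : ℕ, n ≠ 0 → (n : R) * x = 0 → x = 0 := by
        intro n
        induction n using induction_on_primes with
        | zero => intro h; exact absurd rfl h
        | one => intro _ h; rwa [Nat.cast_one, one_mul] at h
        | prime_mul p a hp ih =>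
          intro hpa h
          have ha : a ≠ 0 := right_ne_zero_of_mul hpa
          apply ih ha
          obtain ⟨z, hz⟩ := hcase p hp
          obtain ⟨c, hc⟩ := hR.regular (p : R)
          rw [Nat.cast_mul, mul_assoc] at h
          have h2 : (a : R) * x = (p : R) * ((a : R) * z) := by
            rw [hz, ← mul_assoc, ← mul_assoc, (Nat.cast_commute a (p : R)).eq]
          have h3 : (p : R) * c = c * (p : R) := (Nat.cast_commute p c).eq
          calc (a : R) * x = (p : R) * ((a : R) * z) := h2
            _ = (p : R) * c * (p : R) * ((a : R) * z) := by rw [hc]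
            _ = c * ((p : R) * ((p : R) * ((a : R) * z))) := by rw [h3]; simp only [mul_assoc]
            _ = 0 := by rw [← h2, h, mul_zero]
      exact hx (key n hn hnx)
    -- natural numbers are invertible in the quotient
    have hinv : ∀ n : ℕ, n ≠ 0 → ∃ z : R ⧸ I, z * (n : R ⧸ I) = 1 := by
      intro n hn
      obtain ⟨c, hc⟩ := hR.regular (n : R)
      refine ⟨Ideal.Quotient.mk I c, ?_⟩
      have h1 : Ideal.Quotient.mk I (c * (n : R) - 1) = 0 := by
        rw [Ideal.Quotient.eq_zero_iff_mem]
        refine (hmem _).mpr ⟨n, hn, ?_⟩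
        rw [mul_sub, mul_one, ← mul_assoc, hc, sub_self]
      rw [map_sub, map_mul, map_natCast, map_one, sub_eq_zero] at h1
      exact h1
    have hunit : ∀ n : ℕ, n ≠ 0 → IsUnit (n : Subring.center (R ⧸ I)) := by
      intro n hn
      obtain ⟨z, hz⟩ := hinv n hn
      have hz' : (n : R ⧸ I) * z = 1 := by rw [(Nat.cast_commute n z).eq, hz]
      have hzc : z ∈ Subring.center (R ⧸ I) := by
        rw [Subring.mem_center_iff]
        intro r
        calc r * z = z * (n : R ⧸ I) * (r * z) := by rw [hz, one_mul]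
          _ = z * (r * ((n : R ⧸ I) * z)) := by
            rw [mul_assoc, ← mul_assoc (n : R ⧸ I) r z, (Nat.cast_commute n r).eq, mul_assoc r]
          _ = z * r := by rw [hz', mul_one]
      refine ⟨⟨(n : Subring.center (R ⧸ I)), ⟨z, hzc⟩, ?_, ?_⟩, rfl⟩
      · apply Subtype.ext
        change ((n : Subring.center (R ⧸ I)) : R ⧸ I) * z = 1
        rw [Subring.coe_natCast, hz']
      · apply Subtype.ext
        change z * ((n : Subring.center (R ⧸ I)) : R ⧸ I) = 1
        rw [Subring.coe_natCast, hz]
    let i0 : ℚ →+* Subring.center (R ⧸ I) :=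
      IsLocalization.lift (M := nonZeroDivisors ℤ) (g := Int.castRingHom (Subring.center (R ⧸ I))) (by
        intro y
        have hy : (y : ℤ) ≠ 0 := nonZeroDivisors.ne_zero y.2
        have h1 := hunit (y : ℤ).natAbs (Int.natAbs_ne_zero.mpr hy)
        rcases Int.natAbs_eq (y : ℤ) with h | h
        · rw [h, map_natCast]
          exact h1
        · rw [h, map_neg, map_natCast]
          exact h1.neg)
    let i : ℚ →+* R ⧸ I := (Subring.center (R ⧸ I)).subtype.comp i0
    let alg : Algebra ℚ (R ⧸ I) := i.toAlgebra' (by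
      intro c y
      exact ((Subring.mem_center_iff.mp (i0 c).2) y).symm)
    refine ⟨ℚ, inferInstance, R ⧸ I, inferInstance, st, alg,
      Ideal.Quotient.mk I, hreg, fun a => (hst a).symm, ?_, hx0⟩
    intro c y
    exact map_rat_smul (starAddEquiv : (R ⧸ I) ≃+ (R ⧸ I)) c y

/-- the theorem for rings in the lowest universe -/
theorem inVarietyA_type (hR : StarRegular R) : InVarietyA R := by
  intro s t hst v
  by_contra hne
  obtain ⟨k, _, S, _, _, _, π, hS, hπ, hks, hx⟩ := exists_alg_quot hR _ (sub_ne_zero.mpr hne)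
  apply hx
  rw [map_sub, eval_map hR π hπ, eval_map hR π hπ, sub_eq_zero]
  exact inVarietyA_of_algebra hS hks s t hst _

end quot

/-- every star-regular ring lies in the variety generated by the artinian ones -/
theorem inVarietyA {R : Type u} [Ring R] [StarRing R] (hR : StarRegular R) : InVarietyA R := by
  intro s t hst v
  let R0 : Subring R :=
    { carrier := Set.range (fun t : Term => t.eval v)
      mul_mem' := by
        rintro _ _ ⟨s, rfl⟩ ⟨t, rfl⟩
        exact ⟨Term.mul s t, rfl⟩
      one_mem' := ⟨Term.one, rfl⟩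
      add_mem' := by
        rintro _ _ ⟨s, rfl⟩ ⟨t, rfl⟩
        exact ⟨Term.add s t, rfl⟩
      zero_mem' := ⟨Term.zero, rfl⟩
      neg_mem' := by
        rintro _ ⟨s, rfl⟩
        exact ⟨Term.neg s, rfl⟩ }
  have hmem : ∀ x, x ∈ R0 ↔ ∃ t : Term, t.eval v = x := fun x => Iff.rfl
  have hsurj : Function.Surjective (fun t : Term => (⟨t.eval v, ⟨t, rfl⟩⟩ : R0)) := by
    rintro ⟨_, t, rfl⟩
    exact ⟨t, rfl⟩
  have hsmall : Small.{0} R0 := small_of_surjective hsurj
  let e : Shrink.{0} R0 ≃ R0 := (equivShrink R0).symm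
  let iR : Ring (Shrink.{0} R0) := e.ring
  let re : Shrink.{0} R0 ≃+* R0 := e.ringEquiv
  let f : Shrink.{0} R0 →+* R := R0.subtype.comp re.toRingHom
  have hfinj : Function.Injective f := fun x y hxy => re.injective (Subtype.ext hxy)
  have hfmem : ∀ x : R, x ∈ R0 → ∃ y, f y = x := by
    intro x hx
    refine ⟨re.symm ⟨x, hx⟩, ?_⟩
    change ((re (re.symm ⟨x, hx⟩) : R0) : R) = x
    rw [RingEquiv.apply_symm_apply]
  have hfmem' : ∀ y, f y ∈ R0 := fun y => (re y).2
  have hstar : ∀ y, ∃ z, f z = star (f y) := by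
    intro y
    obtain ⟨t, ht⟩ := (hmem _).mp (hfmem' y)
    exact hfmem _ ⟨Term.star t, by rw [← ht]; rfl⟩
  choose st hst' using hstar
  let iS : StarRing (Shrink.{0} R0) :=
    { star := st
      star_involutive := by
        intro y
        apply hfinj
        rw [hst', hst', star_star]
      star_mul := by
        intro x y
        apply hfinj
        change f (st (x * y)) = f (st y * st x)
        rw [hst', map_mul, map_mul, hst', hst', star_mul]
      star_add := by
        intro x y
        apply hfinj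
        change f (st (x + y)) = f (st x + st y)
        rw [hst', map_add, map_add, hst', hst', star_add] }
  have hfs : ∀ y, f (star y) = star (f y) := hst'
  have hT : StarRegular (Shrink.{0} R0) := by
    constructor
    · intro a
      obtain ⟨t, ht⟩ := (hmem _).mp (hfmem' a)
      obtain ⟨x, hx⟩ := hfmem ((Term.mp t).eval v) ⟨Term.mp t, rfl⟩
      refine ⟨x, hfinj ?_⟩
      rw [map_mul, map_mul, hx, ← ht]
      exact (hR.isMP (t.eval v)).axa
    · intro x hx
      apply hfinj
      rw [map_zero]
      apply hR.proper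
      rw [← hfs, ← map_mul, hx, map_zero]
  choose v' hv' using fun n => hfmem (v n) ⟨Term.var n, rfl⟩
  have h1 := inVarietyA_type hT s t hst v'
  have h2 := congrArg f h1
  rw [eval_map hT f hfs, eval_map hT f hfs] at h2
  simpa only [hv'] using h2

end Pool.Agent.N23.B20
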