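import Pool.Agent.N23.B20.Div

set_option autoImplicit false

/-!
# Linear representations of the elements of the universal field of fractions
-/

namespace Pool.Agent.N23.B20

open Pool.Agent.TH34 Matrix MulOpposite

section rep

variable {k Λ : Type} [Field k] {D : Type} [DivisionRing D] (j : FA k Λ →+* D)

/-- the scalars in the field of fractions -/
noncomputable def jk : k →+* D := j.comp (emb (X0 k Λ))

/-- linearly representable elements -/
def LR (s : D) : Prop :=
  ∃ (ι : Type) (_ : Fintype ι) (M : Matrix ι ι (FA k Λ)) (u v : ι → k) (ξ : ι → D),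
    (∀ a b, M a b ∈ Dg (X0 k Λ) 2) ∧ (∀ x : ι → D, x ᵥ* M.map j = 0 → x = 0) ∧
    (∀ b, ∑ a, ξ a * j (M a b) = jk j (v b)) ∧ s = ∑ a, ξ a * jk j (u a)

variable {j}

theorem LR.const (c : k) : LR j (jk j c) := by
  refine ⟨Unit, inferInstance, 1, fun _ => 1, fun _ => c, fun _ => jk j c, ?_, ?_, ?_, ?_⟩
  · intro a b
    have : (1 : Matrix Unit Unit (FA k Λ)) a b = emb (X0 k Λ) 1 := by
      rw [map_one]
      simp
    rw [this]
    exact Dg_mono (by omega) (emb_Dg (X := X0 k Λ) 1)
  · intro x hx
    funext a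
    have := congrFun hx a
    simpa [Matrix.vecMul, dotProduct] using this
  · intro b
    simp
  · simp

theorem LR.gen (l : Λ) : LR j (j (zel (X0 k Λ) l)) := by
  refine ⟨Unit ⊕ Unit, inferInstance, Matrix.fromBlocks 1 (Matrix.of fun _ _ => - zel (X0 k Λ) l)
    0 1, Sum.elim 0 1, Sum.elim 1 0, Sum.elim 1 (fun _ => j (zel (X0 k Λ) l)), ?_, ?_, ?_, ?_⟩
  · have h1 : (1 : FA k Λ) ∈ Dg (X0 k Λ) 2 := by
      rw [← map_one (emb (X0 k Λ))]
      exact Dg_mono (by omega) (emb_Dg (X := X0 k Λ) 1)
    rintro (a | a) (b | b)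
    · simpa using h1
    · simpa using neg_mem (zel_Dg (k := k) l)
    · simp
    · simpa using h1
  · intro x hx
    have h1 := congrFun hx (Sum.inl ())
    have h2 := congrFun hx (Sum.inr ())
    simp [Matrix.vecMul, dotProduct] at h1 h2
    rw [h1] at h2
    simp at h2
    funext a
    rcases a with a | a
    · exact h1
    · exact h2
  · rintro (b | b)
    · simp
    · simp
  · simp

theorem LR.add {s t : D} (hs : LR j s) (ht : LR j t) : LR j (s + t) := by
  obtain ⟨ι, _, M, u, v, ξ, h1, h2, h3, rfl⟩ := hs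
  obtain ⟨ι', _, M', u', v', ξ', h1', h2', h3', rfl⟩ := ht
  refine ⟨ι ⊕ ι', inferInstance, Matrix.fromBlocks M 0 0 M', Sum.elim u u', Sum.elim v v',
    Sum.elim ξ ξ', ?_, ?_, ?_, ?_⟩
  · rintro (a | a) (b | b)
    · exact h1 a b
    · exact zero_mem _
    · exact zero_mem _
    · exact h1' a b
  · intro x hx
    have e1 : (fun a => x (Sum.inl a)) = 0 := by
      apply h2
      funext b
      have := congrFun hx (Sum.inl b)
      simpa [Matrix.vecMul, dotProduct, Fintype.sum_sum_type] using this
    have e2 : (fun a => x (Sum.inr a)) = 0 := by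
      apply h2'
      funext b
      have := congrFun hx (Sum.inr b)
      simpa [Matrix.vecMul, dotProduct, Fintype.sum_sum_type] using this
    funext a
    rcases a with a | a
    · exact congrFun e1 a
    · exact congrFun e2 a
  · rintro (b | b)
    · simpa [Fintype.sum_sum_type] using h3 b
    · simpa [Fintype.sum_sum_type] using h3' b
  · simp [Fintype.sum_sum_type]

theorem LR.mul {s t : D} (hs : LR j s) (ht : LR j t) : LR j (s * t) := by
  obtain ⟨ι, _, M, u, v, ξ, h1, h2, h3, hs⟩ := hs
  obtain ⟨ι', _, M', u', v', ξ', h1', h2', h3', rfl⟩ := ht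
  refine ⟨ι ⊕ ι', inferInstance, Matrix.fromBlocks M
    (Matrix.of fun a b => emb (X0 k Λ) (-(u a * v' b))) 0 M', Sum.elim 0 u', Sum.elim v 0,
    Sum.elim ξ (fun a => s * ξ' a), ?_, ?_, ?_, ?_⟩
  · rintro (a | a) (b | b)
    · exact h1 a b
    · exact Dg_mono (by omega) (emb_Dg (X := X0 k Λ) _)
    · exact zero_mem _
    · exact h1' a b
  · intro x hx
    have e1 : (fun a => x (Sum.inl a)) = 0 := by
      apply h2
      funext b
      have := congrFun hx (Sum.inl b)
      simpa [Matrix.vecMul, dotProduct, Fintype.sum_sum_type] using this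
    have e1' : ∀ a, x (Sum.inl a) = 0 := fun a => congrFun e1 a
    have e2 : (fun a => x (Sum.inr a)) = 0 := by
      apply h2'
      funext b
      have := congrFun hx (Sum.inr b)
      simpa [Matrix.vecMul, dotProduct, Fintype.sum_sum_type, e1'] using this
    funext a
    rcases a with a | a
    · exact congrFun e1 a
    · exact congrFun e2 a
  · rintro (b | b)
    · simpa [Fintype.sum_sum_type] using h3 b
    · have e1 : ∑ a, ξ a * j (emb (X0 k Λ) (-(u a * v' b))) = - (s * jk j (v' b)) := by
        rw [hs, Finset.sum_mul, ← Finset.sum_neg_distrib]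
        apply Finset.sum_congr rfl
        intro a _
        have : j (emb (X0 k Λ) (-(u a * v' b))) = - (jk j (u a) * jk j (v' b)) := by
          simp [jk]
        rw [this, mul_neg, mul_assoc]
      have e2 : ∑ a, s * ξ' a * j (M' a b) = s * jk j (v' b) := by
        rw [← h3' b, Finset.mul_sum]
        apply Finset.sum_congr rfl
        intro a _
        rw [mul_assoc]
      simp only [Fintype.sum_sum_type, Sum.elim_inl, Sum.elim_inr, Matrix.fromBlocks_apply₁₂,
        Matrix.fromBlocks_apply₂₂, Matrix.of_apply, Pi.zero_apply, map_zero]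
      rw [e1, e2, neg_add_cancel]
  · simp [Fintype.sum_sum_type, Finset.mul_sum, mul_assoc]

theorem LR.inv {s : D} (hs : LR j s) : LR j s⁻¹ := by
  by_cases hs0 : s = 0
  · rw [hs0, _root_.inv_zero, ← map_zero (jk j)]
    exact LR.const 0
  obtain ⟨ι, _, M, u, v, ξ, h1, h2, h3, hs⟩ := hs
  refine ⟨ι ⊕ Unit, inferInstance, Matrix.fromBlocks M
    (Matrix.of fun a _ => emb (X0 k Λ) (u a)) (Matrix.of fun _ b => emb (X0 k Λ) (v b)) 0,
    Sum.elim 0 1, Sum.elim 0 (fun _ => -1),
    Sum.elim (fun a => - (s⁻¹ * ξ a)) (fun _ => s⁻¹), ?_, ?_, ?_, ?_⟩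
  · rintro (a | a) (b | b)
    · exact h1 a b
    · exact Dg_mono (by omega) (emb_Dg (X := X0 k Λ) _)
    · exact Dg_mono (by omega) (emb_Dg (X := X0 k Λ) _)
    · exact zero_mem _
  · intro x hx
    have e1 : (fun a => x (Sum.inl a) + x (Sum.inr ()) * ξ a) = 0 := by
      apply h2
      funext b
      have h4 := congrFun hx (Sum.inl b)
      simp only [Matrix.vecMul, dotProduct, Fintype.sum_sum_type, Matrix.map_apply,
        Matrix.fromBlocks_apply₁₁, Matrix.fromBlocks_apply₂₁, Matrix.of_apply, Pi.zero_apply,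
        Finset.univ_unique, Finset.sum_singleton] at h4 ⊢
      rw [← h4]
      simp only [add_mul, Finset.sum_add_distrib, mul_assoc, ← Finset.mul_sum, h3]
      rfl
    have e1' : ∀ a, x (Sum.inl a) = - (x (Sum.inr ()) * ξ a) := fun a =>
      eq_neg_of_add_eq_zero_left (congrFun e1 a)
    have e2 : x (Sum.inr ()) = 0 := by
      have h4 := congrFun hx (Sum.inr ())
      simp only [Matrix.vecMul, dotProduct, Fintype.sum_sum_type, Matrix.map_apply,
        Matrix.fromBlocks_apply₁₂, Matrix.fromBlocks_apply₂₂, Matrix.of_apply, Pi.zero_apply,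
        Matrix.zero_apply, map_zero, mul_zero, Finset.sum_const_zero, add_zero] at h4
      simp only [e1', neg_mul, mul_assoc, Finset.sum_neg_distrib, ← Finset.mul_sum] at h4
      have h5 : x (Sum.inr ()) * s = 0 := by
        rw [hs]
        exact neg_eq_zero.mp h4
      exact (mul_eq_zero.mp h5).resolve_right hs0
    funext a
    rcases a with a | a
    · rw [e1', e2]
      simp
    · exact e2
  · rintro (b | b)
    · simp only [Fintype.sum_sum_type, Sum.elim_inl, Sum.elim_inr, Matrix.fromBlocks_apply₁₁,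
        Matrix.fromBlocks_apply₂₁, Matrix.of_apply, Pi.zero_apply, map_zero, neg_mul, mul_assoc,
        Finset.sum_neg_distrib, ← Finset.mul_sum, h3, Finset.univ_unique, Finset.sum_singleton]
      exact neg_add_cancel _
    · simp only [Fintype.sum_sum_type, Sum.elim_inl, Sum.elim_inr, Matrix.fromBlocks_apply₁₂,
        Matrix.fromBlocks_apply₂₂, Matrix.of_apply, Matrix.zero_apply, map_zero, mul_zero,
        neg_mul, mul_assoc, Finset.sum_neg_distrib, ← Finset.mul_sum, Finset.sum_const_zero,
        add_zero]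
      have h5 : ∑ a, ξ a * j (emb (X0 k Λ) (u a)) = s := hs.symm
      rw [h5, inv_mul_cancel₀ hs0, map_neg, map_one]
  · simp [Fintype.sum_sum_type]

/-- the division subring of linearly representable elements -/
def LRfield (j : FA k Λ →+* D) : Subfield D where
  carrier := {s | LR j s}
  mul_mem' := fun h1 h2 => LR.mul h1 h2
  one_mem' := by
    have := LR.const (j := j) 1
    rwa [map_one] at this
  add_mem' := fun h1 h2 => LR.add h1 h2
  zero_mem' := by
    have := LR.const (j := j) 0
    rwa [map_zero] at this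
  neg_mem' := by
    intro x hx
    have h1 := LR.mul (LR.const (j := j) (-1)) hx
    rwa [map_neg, map_one, neg_one_mul] at h1
  inv_mem' := fun _ h => LR.inv h

theorem mem_LRfield_j (f : FA k Λ) : j f ∈ LRfield j := by
  have hw : ∀ w : List (Λ × Unit), j (W (X := X0 k Λ) w 1) ∈ LRfield j := by
    intro w
    induction w with
    | nil =>
      rw [W_nil, map_one]
      exact one_mem _
    | cons x w ih =>
      rw [W_cons, ← zel_mul, ← emb_mul, map_mul, map_mul]
      exact mul_mem (LR.gen x.1) (mul_mem (LR.const _) ih)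
  induction f using FR.ind with
  | h0 =>
    rw [map_zero]
    exact zero_mem _
  | ha a b ha hb =>
    rw [map_add]
    exact add_mem ha hb
  | hs w e =>
    rw [sg_eq_smul, ← W_one, ← emb_mul, map_mul]
    exact mul_mem (LR.const _) (hw w)

theorem LR_all (hgen : ∀ K : Subfield D, (∀ a, j a ∈ K) → ∀ x, x ∈ K) (s : D) : LR j s :=
  hgen (LRfield j) mem_LRfield_j s

variable (j) in
/-- homogeneous linear representation of a vector -/
def HR {n : Type} (v : n → D) (m : ℕ) : Prop :=
  ∃ (P : Matrix (Fin (m + 1)) (Fin m) (FA k Λ)) (C : Matrix (Fin (m + 1)) n k)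
    (ξ : Fin (m + 1) → D), (∀ a b, P a b ∈ Dg (X0 k Λ) 2) ∧ ξ ᵥ* P.map j = 0 ∧
    (∀ x : Fin (m + 1) → D, x ᵥ* P.map j = 0 → ∃ d : D, x = d • ξ) ∧ v = ξ ᵥ* C.map (jk j)

theorem exists_HR (hgen : ∀ K : Subfield D, (∀ a, j a ∈ K) → ∀ x, x ∈ K) {n : Type} [Fintype n]
    (v : n → D) : ∃ m, HR j v m := by
  classical
  choose ι inst M u w ξ h1 h2 h3 h4 using fun i => LR_all hgen (v i)
  let ι' : Type := Σ i, ι i
  let M' : Matrix ι' ι' (FA k Λ) := Matrix.blockDiagonal' M
  let ξ' : ι' → D := fun x => ξ x.1 x.2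
  have hsum : ∀ (x : ι' → D) (i : n) (b : ι i), ∑ y : ι', x y * j (M' y ⟨i, b⟩) =
      ∑ a, x ⟨i, a⟩ * j (M i a b) := by
    intro x i b
    rw [Fintype.sum_sigma, Finset.sum_eq_single i]
    · apply Finset.sum_congr rfl
      intro a _
      simp only [M']
      rw [Matrix.blockDiagonal'_apply_eq]
    · intro i' _ hi'
      apply Finset.sum_eq_zero
      intro a _
      simp only [M']
      rw [Matrix.blockDiagonal'_apply_ne _ _ _ hi', map_zero, mul_zero]
    · simp
  have hM' : ∀ x : ι' → D, x ᵥ* M'.map j = 0 → x = 0 := by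
    intro x hx
    have h5 : ∀ i, (fun a => x ⟨i, a⟩) = 0 := by
      intro i
      apply h2 i
      funext b
      have := congrFun hx ⟨i, b⟩
      rw [Pi.zero_apply] at this ⊢
      rw [← this]
      exact (hsum x i b).symm
    funext ⟨i, a⟩
    exact congrFun (h5 i) a
  let e : ι' ≃ Fin (Fintype.card ι') := Fintype.equivFin ι'
  let e' : ι' ⊕ Unit ≃ Fin (Fintype.card ι' + 1) :=
    (Equiv.sumCongr e (Equiv.ofUnique Unit (Fin 1))).trans finSumFinEquiv
  let P0 : Matrix (ι' ⊕ Unit) ι' (FA k Λ) :=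
    Matrix.fromRows M' (Matrix.of fun _ b => emb (X0 k Λ) (-(w b.1 b.2)))
  let C0 : Matrix (ι' ⊕ Unit) n k :=
    Matrix.fromRows (Matrix.of fun x i => if x.1 = i then u x.1 x.2 else 0) 0
  let ξ0 : ι' ⊕ Unit → D := Sum.elim ξ' 1
  have hP0 : ∀ (x : ι' ⊕ Unit → D) (b : ι'), ∑ a, x a * j (P0 a b) =
      ∑ a, x (Sum.inl a) * j (M' a b) - x (Sum.inr ()) * jk j (w b.1 b.2) := by
    intro x b
    rw [Fintype.sum_sum_type]
    simp only [P0, Matrix.fromRows_apply_inl, Matrix.fromRows_apply_inr, Matrix.of_apply,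
      Finset.univ_unique, Finset.sum_singleton, map_neg, mul_neg]
    rw [sub_eq_add_neg]
    rfl
  have hξ : ∀ b : ι', ∑ a, ξ' a * j (M' a b) = jk j (w b.1 b.2) := by
    rintro ⟨i, b⟩
    rw [hsum]
    exact h3 i b
  refine ⟨Fintype.card ι', P0.submatrix e'.symm e.symm, C0.submatrix e'.symm id, ξ0 ∘ e'.symm,
    ?_, ?_, ?_, ?_⟩
  · intro a b
    have : ∀ a b, P0 a b ∈ Dg (X0 k Λ) 2 := by
      rintro (a | a) b
      · change M' a b ∈ _
        obtain ⟨i, a⟩ := a
        obtain ⟨i', b⟩ := b
        by_cases hi : i = i'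
        · subst hi
          simp only [M']
          rw [Matrix.blockDiagonal'_apply_eq]
          exact h1 i a b
        · simp only [M']
          rw [Matrix.blockDiagonal'_apply_ne _ _ _ hi]
          exact zero_mem _
      · exact Dg_mono (by omega) (emb_Dg (X := X0 k Λ) _)
    exact this _ _
  · funext b
    change ∑ a, ξ0 (e'.symm a) * j (P0 (e'.symm a) (e.symm b)) = 0
    rw [Equiv.sum_comp e'.symm (fun a => ξ0 a * j (P0 a (e.symm b))), hP0]
    change ∑ a, ξ' a * j (M' a (e.symm b)) - 1 * _ = 0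
    rw [hξ, one_mul, sub_self]
  · intro x hx
    refine ⟨x (e' (Sum.inr ())), ?_⟩
    have h5 : (fun a => x (e' (Sum.inl a)) - x (e' (Sum.inr ())) * ξ' a) = 0 := by
      apply hM'
      funext b
      have h6 : ∑ a, x a * j (P0 (e'.symm a) b) = 0 := by
        have := congrFun hx (e b)
        change ∑ a, x a * j (P0 (e'.symm a) (e.symm (e b))) = 0 at this
        rwa [Equiv.symm_apply_apply] at this
      rw [← Equiv.sum_comp e' (fun a => x a * j (P0 (e'.symm a) b))] at h6
      simp only [Equiv.symm_apply_apply] at h6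
      rw [hP0 (fun a => x (e' a))] at h6
      change ∑ a, (x (e' (Sum.inl a)) - x (e' (Sum.inr ())) * ξ' a) * j (M' a b) = 0
      rw [← h6]
      simp only [sub_mul, Finset.sum_sub_distrib, mul_assoc, ← Finset.mul_sum, hξ]
    funext a
    obtain ⟨a, rfl⟩ := e'.surjective a
    rw [Pi.smul_apply, Function.comp_apply, Equiv.symm_apply_apply, smul_eq_mul]
    rcases a with a | a
    · exact sub_eq_zero.mp (congrFun h5 a)
    · change _ = _ * (1 : D)
      rw [mul_one]
  · funext i
    change _ = ∑ a, ξ0 (e'.symm a) * jk j (C0 (e'.symm a) i)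
    rw [Equiv.sum_comp e'.symm (fun a => ξ0 a * jk j (C0 a i)), Fintype.sum_sum_type,
      Fintype.sum_sigma, Finset.sum_eq_single i]
    · rw [h4 i]
      simp [C0, ξ0, ξ']
    · intro i' _ hi'
      apply Finset.sum_eq_zero
      intro a _
      simp [C0, hi']
    · simp

end rep

end Pool.Agent.N23.B20
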